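import Pool.Agent.Q72.EG.Stm2
import Pool.Agent.Q72.MX.Tr
import Pool.Agent.W578.ECPt
import Pool.Agent.W565.EC.Newt

/-!
Project EG (helper72): translates.
-/

set_option autoImplicit false

namespace Pool.Agent.Q72.EG

open MvPolynomial Filter Topology Metric Pool.Agent.W996.EC Pool.Agent.Y563.SE
open Pool.Agent.Q72.MX (act actI fA fB ta tb eval_ta eval_tb eval_bind act_actI actI_act trs_eq
  fA_ne)

variable {n : ℕ}

/-- `P(x - c)` -/
noncomputable def sh (c : Fin n → ℂ) (P : MvPolynomial (Fin n) ℂ) : MvPolynomial (Fin n) ℂ :=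
  bind₁ (fun i => X i - C (c i)) P

theorem eval_sh (c x : Fin n → ℂ) (P : MvPolynomial (Fin n) ℂ) :
    eval x (sh c P) = eval (fun i => x i - c i) P := by
  unfold sh
  rw [eval_bind]
  simp

theorem sh_sh (c : Fin n → ℂ) (P : MvPolynomial (Fin n) ℂ) : sh (fun i => -c i) (sh c P) = P := by
  apply MvPolynomial.funext
  intro x
  rw [eval_sh, eval_sh]
  simp

theorem sh_sh' (c : Fin n → ℂ) (P : MvPolynomial (Fin n) ℂ) : sh c (sh (fun i => -c i) P) = P := by
  apply MvPolynomial.funext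
  intro x
  rw [eval_sh, eval_sh]
  simp

/-- translation as an algebra automorphism -/
noncomputable def shE (c : Fin n → ℂ) : MvPolynomial (Fin n) ℂ ≃* MvPolynomial (Fin n) ℂ where
  toFun := sh c
  invFun := sh (fun i => -c i)
  left_inv := sh_sh c
  right_inv := sh_sh' c
  map_mul' P Q := by unfold sh; exact map_mul _ _ _

theorem shE_apply (c : Fin n → ℂ) (P : MvPolynomial (Fin n) ℂ) : shE c P = sh c P := rfl

theorem sh_irr {c : Fin n → ℂ} {P : MvPolynomial (Fin n) ℂ} (h : Irreducible P) :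
    Irreducible (sh c P) := by
  rw [← shE_apply]
  exact (MulEquiv.irreducible_iff (shE c)).mpr h

theorem sh_dvd {c : Fin n → ℂ} {P Q : MvPolynomial (Fin n) ℂ} : sh c P ∣ sh c Q ↔ P ∣ Q := by
  rw [← shE_apply, ← shE_apply]
  exact map_dvd_iff (shE c)

theorem totalDegree_sh_le (c : Fin n → ℂ) (P : MvPolynomial (Fin n) ℂ) :
    (sh c P).totalDegree ≤ P.totalDegree := by
  unfold sh
  rw [bind₁, aeval_def, eval₂_eq']
  refine totalDegree_finsetSum_le fun m hm => ?_
  refine (totalDegree_mul _ _).trans ?_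
  rw [show (algebraMap ℂ (MvPolynomial (Fin n) ℂ)) (coeff m P) = C (coeff m P) from rfl,
    totalDegree_C, zero_add]
  refine (totalDegree_finsetProd _ _).trans ?_
  have h1 : ∀ i ∈ Finset.univ, ((X i - C (c i) :
      MvPolynomial (Fin n) ℂ) ^ m i).totalDegree ≤ m i := by
    intro i _
    refine (totalDegree_pow _ _).trans ?_
    have h2 : (X i - C (c i) : MvPolynomial (Fin n) ℂ).totalDegree ≤ 1 := by
      refine (totalDegree_sub _ _).trans (max_le ?_ ?_)
      · rw [totalDegree_X]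
      · rw [totalDegree_C]; exact Nat.zero_le _
    calc m i * _ ≤ m i * 1 := Nat.mul_le_mul_left _ h2
      _ = m i := mul_one _
  refine (Finset.sum_le_sum h1).trans ?_
  have h3 := le_totalDegree hm
  rwa [Finsupp.sum_fintype _ _ (fun _ => rfl)] at h3

theorem totalDegree_sh (c : Fin n → ℂ) (P : MvPolynomial (Fin n) ℂ) :
    (sh c P).totalDegree = P.totalDegree := by
  apply le_antisymm (totalDegree_sh_le c P)
  have h := totalDegree_sh_le (fun i => -c i) (sh c P)
  rwa [sh_sh] at h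

/-- the value of the leading form as a limit -/
theorem top_lim (P : MvPolynomial (Fin n) ℂ) (N : ℕ) (hN : P.totalDegree ≤ N) (x : Fin n → ℂ)
    (b : Fin n → ℂ) :
    Tendsto (fun t : ℕ => ((t : ℂ) ^ N)⁻¹ * eval (fun i => (t : ℂ) * x i + b i) P) atTop
      (𝓝 (eval x (homogeneousComponent N P))) := by
  -- write x_t = x + b/t
  have hxt : Tendsto (fun t : ℕ => (fun i => x i + b i / (t : ℂ) : Fin n → ℂ)) atTop (𝓝 x) := by
    rw [tendsto_pi_nhds]
    intro i
    have h1 : Tendsto (fun t : ℕ => b i / (t : ℂ)) atTop (𝓝 0) := by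
      have := (tendsto_inv_atTop_nhds_zero_nat (𝕜 := ℂ)).const_mul (b i)
      simpa [div_eq_mul_inv] using this
    simpa using h1.const_add (x i)
  have hcont : ∀ m : ℕ, Tendsto (fun t : ℕ => eval (fun i => x i + b i / (t : ℂ))
      (homogeneousComponent m P)) atTop (𝓝 (eval x (homogeneousComponent m P))) := by
    intro m
    have hc : Continuous fun y : Fin n → ℂ => eval y (homogeneousComponent m P) :=
      MvPolynomial.continuous_eval _
    exact (hc.tendsto x).comp hxt
  have hsum : ∀ᶠ t : ℕ in atTop, ((t : ℂ) ^ N)⁻¹ * eval (fun i => (t : ℂ) * x i + b i) P =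
      ∑ m ∈ Finset.range (N + 1), ((t : ℂ) ^ (N - m))⁻¹ *
        eval (fun i => x i + b i / (t : ℂ)) (homogeneousComponent m P) := by
    filter_upwards [eventually_gt_atTop 0] with t ht
    have ht0 : (t : ℂ) ≠ 0 := by exact_mod_cast ht.ne'
    have e1 : (fun i => (t : ℂ) * x i + b i) = fun i => (t : ℂ) * (x i + b i / (t : ℂ)) := by
      funext i
      field_simp
    rw [e1]
    clear e1
    have e2 : eval (fun i => (t : ℂ) * (x i + b i / (t : ℂ))) P =
        ∑ m ∈ Finset.range (N + 1), (t : ℂ) ^ m *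
          eval (fun i => x i + b i / (t : ℂ)) (homogeneousComponent m P) := by
      have hP : P = ∑ m ∈ Finset.range (N + 1), homogeneousComponent m P := by
        conv_lhs => rw [← sum_homogeneousComponent P]
        refine Finset.sum_subset (Finset.range_mono (by omega)) ?_
        intro m _ hm2
        apply homogeneousComponent_eq_zero
        rw [Finset.mem_range] at hm2
        omega
      conv_lhs => rw [hP]
      rw [map_sum]
      refine Finset.sum_congr rfl fun m _ => ?_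
      exact W721.EC.hom_smul (homogeneousComponent_isHomogeneous m P) (t : ℂ) _
    rw [e2, Finset.mul_sum]
    refine Finset.sum_congr rfl fun m hm => ?_
    rw [Finset.mem_range] at hm
    have e3 : (t : ℂ) ^ N = (t : ℂ) ^ (N - m) * (t : ℂ) ^ m := by
      rw [← pow_add]; congr 1; omega
    have ht1 : (t : ℂ) ^ m ≠ 0 := pow_ne_zero _ ht0
    rw [e3, mul_inv, mul_assoc, inv_mul_cancel_left₀ ht1]
  refine Tendsto.congr' (EventuallyEq.symm hsum) ?_
  rw [show eval x (homogeneousComponent N P) = ∑ m ∈ Finset.range (N + 1),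
    (if m = N then 1 else 0) * eval x (homogeneousComponent m P) by simp]
  refine tendsto_finsetSum _ fun m hm => ?_
  refine Tendsto.mul ?_ (hcont m)
  rw [Finset.mem_range] at hm
  by_cases hmN : m = N
  · subst hmN
    simp
  · rw [if_neg hmN]
    have h1 : 0 < N - m := by omega
    have h2 := ((tendsto_inv_atTop_nhds_zero_nat (𝕜 := ℂ)).pow (N - m))
    rw [zero_pow h1.ne'] at h2
    simpa [inv_pow] using h2

theorem top_sh (c : Fin n → ℂ) (P : MvPolynomial (Fin n) ℂ) : top (sh c P) = top P := by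
  unfold top
  rw [totalDegree_sh]
  apply MvPolynomial.funext
  intro x
  have h1 := top_lim (sh c P) P.totalDegree (totalDegree_sh c P).le x 0
  have h2 := top_lim P P.totalDegree le_rfl x (fun i => -c i)
  refine tendsto_nhds_unique h1 (h2.congr fun t => ?_)
  rw [eval_sh]
  simp [sub_eq_add_neg]

theorem limOne_sh {c : Fin n → ℂ} {P : MvPolynomial (Fin n) ℂ} {l : Fin n → ℝ}
    {f : Polynomial ℂ} (hf : 1 ≤ f.natDegree) (hl : l ≠ 0)
    (h : LimOne (sh c P) (Polynomial.aeval (lin l) f)) :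
    ∃ f' : Polynomial ℂ, 1 ≤ f'.natDegree ∧ LimOne P (Polynomial.aeval (lin l) f') := by
  obtain ⟨h0, k, d, hk⟩ := h
  set s : ℂ := ∑ i, (l i : ℂ) * c i with hs
  have hev : ∀ (g : Polynomial ℂ) (x : Fin n → ℂ),
      eval x (Polynomial.aeval (lin l) g) = g.eval (∑ i, (l i : ℂ) * x i) := by
    intro g x
    rw [← eval_lin]
    rw [← MvPolynomial.coe_aeval_eq_eval]
    simp only [RingHom.coe_coe]
    rw [← Polynomial.aeval_algHom_apply]
    simp
  refine ⟨f.comp (Polynomial.X + Polynomial.C s), ?_, ?_, k, d, ?_⟩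
  · rw [Polynomial.natDegree_comp, Polynomial.natDegree_X_add_C, mul_one]; exact hf
  · intro hz
    obtain ⟨i, hi⟩ : ∃ i, l i ≠ 0 := by
      by_contra hh
      push Not at hh
      exact hl (funext hh)
    have : f.comp (Polynomial.X + Polynomial.C s) = 0 := by
      apply Polynomial.funext
      intro y
      have h1 := hev (f.comp (Polynomial.X + Polynomial.C s)) (Pi.single i (y / (l i : ℂ)))
      rw [hz, map_zero] at h1
      have h2 : ∑ j, (l j : ℂ) * (Pi.single i (y / (l i : ℂ)) : Fin n → ℂ) j = y := by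
        rw [Finset.sum_eq_single i]
        · rw [Pi.single_eq_same]
          have : (l i : ℂ) ≠ 0 := by exact_mod_cast hi
          field_simp
        · intro b _ hb
          rw [Pi.single_eq_of_ne hb, mul_zero]
        · intro h; exact absurd (Finset.mem_univ _) h
      rw [h2] at h1
      rw [← h1]; simp
    have h3 : (f.comp (Polynomial.X + Polynomial.C s)).natDegree = 0 := by rw [this]; simp
    rw [Polynomial.natDegree_comp, Polynomial.natDegree_X_add_C, mul_one] at h3
    omega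
  · apply W578.ECPt.t_pt n P.totalDegree
    · intro j
      refine (totalDegree_mul _ _).trans ?_
      rw [totalDegree_C, zero_add]
      exact totalDegree_tr_le _ _ _
    · intro x
      have h1 := W578.ECPt.conv_eval n _ _ hk (fun _ i => x i + c i) (fun i => x i + c i)
        tendsto_const_nhds
      rw [hev] at h1 ⊢
      have e1 : (f.comp (Polynomial.X + Polynomial.C s)).eval (∑ i, (l i : ℂ) * x i) =
          f.eval (∑ i, (l i : ℂ) * (x i + c i)) := by
        rw [Polynomial.eval_comp]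
        simp only [Polynomial.eval_add, Polynomial.eval_X, Polynomial.eval_C, hs]
        congr 1
        rw [← Finset.sum_add_distrib]
        exact Finset.sum_congr rfl fun i _ => by ring
      rw [e1]
      refine h1.congr fun j => ?_
      rw [map_mul, map_mul, eval_tr, eval_tr, eval_sh, eval_C, eval_C]
      have e5 : (fun i => ((1 : ℝ) : ℂ) * (x i + c i) + Complex.I * (k j i : ℂ) - c i) =
          fun i => ((1 : ℝ) : ℂ) * x i + Complex.I * (k j i : ℂ) := by
        funext i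
        push_cast
        ring
      rw [e5]

theorem indep_trs {c : Fin n ⊕ Fin n → ℂ} (hc : ∀ i, c (Sum.inr i) ≠ 0)
    {V : Set (Fin n ⊕ Fin n → ℂ)} {J : Finset (Fin n ⊕ Fin n)} (h : IndepV V J) :
    IndepV (Trs c V) J := by
  have hta0 : ∀ f, ta c f = 0 → f = 0 := by
    intro f hf
    apply MvPolynomial.funext
    intro w
    rw [map_zero, ← act_actI hc w, ← eval_ta, hf, map_zero]
  intro f hf h1
  refine hta0 f (h _ ?_ ?_)
  · unfold ta
    refine (MvPolynomial.vars_bind₁ _ _).trans ?_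
    intro k hk
    rw [Finset.mem_biUnion] at hk
    obtain ⟨s, hs, hks⟩ := hk
    have h2 := MvPolynomial.vars_add_subset _ _ hks
    rw [MvPolynomial.vars_C, Finset.union_empty] at h2
    have h3 := MvPolynomial.vars_mul _ _ h2
    rw [MvPolynomial.vars_C, Finset.empty_union, MvPolynomial.vars_X,
      Finset.mem_singleton] at h3
    rw [h3]
    exact hf hs
  · intro p hp
    rw [eval_ta]
    apply h1
    rw [trs_eq]
    exact ⟨p, hp, rfl⟩

/-- the inverse translation -/
noncomputable def ci (c : Fin n ⊕ Fin n → ℂ) : Fin n ⊕ Fin n → ℂ :=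
  Sum.elim (fun i => -c (Sum.inl i)) (fun i => (c (Sum.inr i))⁻¹)

theorem ci_ne {c : Fin n ⊕ Fin n → ℂ} (hc : ∀ i, c (Sum.inr i) ≠ 0) :
    ∀ i, ci c (Sum.inr i) ≠ 0 := fun i => by simpa [ci] using hc i

theorem trs_ci {c : Fin n ⊕ Fin n → ℂ} (hc : ∀ i, c (Sum.inr i) ≠ 0)
    (V : Set (Fin n ⊕ Fin n → ℂ)) : Trs (ci c) (Trs c V) = V := by
  ext p
  constructor
  · rintro ⟨u, ⟨v, hv, rfl⟩, rfl⟩
    convert hv using 1
    funext s
    rcases s with s | s
    · simp [ci]
    · simp only [ci, Sum.elim_inr]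
      rw [← mul_assoc, inv_mul_cancel₀ (hc s), one_mul]
  · intro hp
    refine ⟨_, ⟨p, hp, rfl⟩, ?_⟩
    funext s
    rcases s with s | s
    · simp [ci]
    · simp only [ci, Sum.elim_inr]
      rw [← mul_assoc, inv_mul_cancel₀ (hc s), one_mul]

theorem hasDim_trs {c : Fin n ⊕ Fin n → ℂ} (hc : ∀ i, c (Sum.inr i) ≠ 0)
    {V : Set (Fin n ⊕ Fin n → ℂ)} {d : ℕ} (h : HasDimV V d) : HasDimV (Trs c V) d := by
  obtain ⟨⟨J, hJ, hJi⟩, h2⟩ := h
  refine ⟨⟨J, hJ, indep_trs hc hJi⟩, fun J' hJ' hi => h2 J' hJ' ?_⟩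
  have := indep_trs (ci_ne hc) hi
  rwa [trs_ci hc] at this

theorem isVar_trs {c : Fin n ⊕ Fin n → ℂ} (hc : ∀ i, c (Sum.inr i) ≠ 0)
    {I : Ideal (MvPolynomial (Fin n ⊕ Fin n) ℂ)} {V : Set (Fin n ⊕ Fin n → ℂ)}
    (h : IsVar I V) : IsVar (I.comap (ta c)) (Trs c V) := by
  have hVmem : ∀ p, p ∈ V ↔ (∀ f ∈ I, eval p f = 0) ∧ ∀ j : Fin n, p (Sum.inr j) ≠ 0 := by
    intro p; rw [h.points]; rfl
  have htatb : ∀ g, ta c (tb c g) = g := by
    intro g
    apply MvPolynomial.funext
    intro w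
    rw [eval_ta, eval_tb, actI_act hc]
  have := h.prime
  refine ⟨inferInstance, ?_, ?_⟩
  · rw [trs_eq]
    ext p
    constructor
    · rintro ⟨u, hu, rfl⟩
      refine ⟨fun f hf => ?_, fun j => ?_⟩
      · rw [← eval_ta]
        exact ((hVmem u).1 hu).1 _ hf
      · have h1 := ((hVmem u).1 hu).2 j
        have h2 := hc j
        simp [act, fA, fB, h1, h2]
    · rintro ⟨h1, h2⟩
      refine ⟨actI c p, (hVmem _).2 ⟨fun g hg => ?_, fun j => ?_⟩, act_actI hc p⟩
      · rw [← eval_tb]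
        apply h1
        rw [Ideal.mem_comap, htatb]
        exact hg
      · have h3 := hc j
        have h4 := h2 j
        simp [actI, fA, fB, h3, h4]
  · obtain ⟨u, hu⟩ := h.nonempty
    exact ⟨_, u, hu, rfl⟩

theorem projEq_trs (c : Fin n ⊕ Fin n → ℂ) {V : Set (Fin n ⊕ Fin n → ℂ)}
    {P : MvPolynomial (Fin n) ℂ} (h : ProjEq V P) :
    ProjEq (Trs c V) (sh (fun i => c (Sum.inl i)) P) := by
  refine ⟨sh_irr h.1, fun f => ?_⟩
  rw [show f = sh (fun i => c (Sum.inl i)) (sh (fun i => -c (Sum.inl i)) f) from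
    (sh_sh' _ f).symm, sh_dvd, ← h.2]
  constructor
  · intro h1 p hp
    have := h1 _ ⟨p, hp, rfl⟩
    rw [eval_sh] at this
    simpa using this
  · rintro h1 _ ⟨p, hp, rfl⟩
    rw [eval_sh]
    simpa using h1 p hp

theorem monAlg_trs {c : Fin n ⊕ Fin n → ℂ} (hc : ∀ i, c (Sum.inr i) ≠ 0)
    {V : Set (Fin n ⊕ Fin n → ℂ)} {P : MvPolynomial (Fin n) ℂ} {m : Fin n → ℤ}
    (h : MonAlg (Trs c V) (sh (fun i => c (Sum.inl i)) P) m) : MonAlg V P m := by
  obtain ⟨A, ⟨b, hb⟩, hA⟩ := h
  set γ : ℂ := ∏ l, c (Sum.inr l) ^ m l with hγ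
  have hγ0 : γ ≠ 0 := Finset.prod_ne_zero_iff.2 fun j _ => zpow_ne_zero _ (hc j)
  set φ : MvPolynomial (Fin n) ℂ →+* MvPolynomial (Fin n) ℂ :=
    (bind₁ (fun i => X i - C (-c (Sum.inl i))) :
      MvPolynomial (Fin n) ℂ →ₐ[ℂ] MvPolynomial (Fin n) ℂ).toRingHom with hφ
  have hφe : ∀ g, φ g = sh (fun i => -c (Sum.inl i)) g := fun g => rfl
  refine ⟨(A.map φ).comp (Polynomial.C (C γ) * Polynomial.X), ⟨b, ?_⟩, ?_⟩
  · rw [Polynomial.comp_C_mul_X_coeff, Polynomial.coeff_map]
    intro hd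
    have hu : IsUnit ((C γ : MvPolynomial (Fin n) ℂ) ^ b) :=
      ((IsUnit.mk0 γ hγ0).map C).pow b
    rw [hu.dvd_mul_right] at hd
    apply hb
    rw [hφe] at hd
    rw [show A.coeff b = sh (fun i => c (Sum.inl i)) (sh (fun i => -c (Sum.inl i)) (A.coeff b)) from
      (sh_sh' _ _).symm, sh_dvd]
    exact hd
  · intro p hp
    have h1 := hA _ ⟨p, hp, rfl⟩
    simp only [Sum.elim_inl, Sum.elim_inr] at h1
    rw [Polynomial.map_comp, Polynomial.eval_comp, Polynomial.map_map]
    have e1 : (eval fun l => p (Sum.inl l)).comp φ =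
        (eval fun l => p (Sum.inl l) + c (Sum.inl l) : MvPolynomial (Fin n) ℂ →+* ℂ) := by
      apply RingHom.ext
      intro g
      rw [RingHom.comp_apply, hφe, eval_sh]
      congr 1
      simp
    rw [e1]
    convert h1 using 2
    simp only [Polynomial.map_mul, Polynomial.map_C, Polynomial.map_X, Polynomial.eval_mul,
      Polynomial.eval_C, Polynomial.eval_X, eval_C]
    rw [hγ, ← Finset.prod_mul_distrib]
    exact Finset.prod_congr rfl fun l _ => (mul_zpow _ _ _).symm

/-- the theorem for all translates -/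
theorem vv_translate (hVV : S_VV) (n : ℕ) (I : Ideal (MvPolynomial (Fin n ⊕ Fin n) ℂ))
    (V : Set (Fin n ⊕ Fin n → ℂ)) (P : MvPolynomial (Fin n) ℂ) (hV : IsVar I V)
    (hd : HasDimV V n) (hP : ProjEq V P) (c : Fin n ⊕ Fin n → ℂ)
    (hc : ∀ i, c (Sum.inr i) ≠ 0) :
    ((2 ≤ n → (∀ κ : Fin n → ℝ, κ ≠ 0 → eval (cx κ) (top P) ≠ 0) → DenseExp (Trs c V)) ∧
    (∀ G, Irreducible G → G ∣ top P → (¬ ∃ c : ℂ, c ≠ 0 ∧ ∀ m, (coeff m (C c * G)).im = 0) →
      (∀ m m' : Fin n → ℤ, LinearIndependent ℤ ![m, m'] → ¬ MonAlg V P m ∨ ¬ MonAlg V P m') →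
      DenseExp (Trs c V)) ∧
    ((∀ m : Fin n → ℤ, m ≠ 0 → ¬ MonAlg V P m) →
      (¬ ∃ (l : Fin n → ℝ) (f : Polynomial ℂ), l ≠ 0 ∧ 1 ≤ f.natDegree ∧
        LimOne P (Polynomial.aeval (lin l) f)) → DenseExp (Trs c V))) := by
  obtain ⟨h1, h2, h3⟩ := hVV n _ _ _ (isVar_trs hc hV) (hasDim_trs hc hd) (projEq_trs c hP)
  rw [top_sh] at h1 h2
  refine ⟨h1, ?_, ?_⟩
  · intro G hG hGd hGr hm
    refine h2 G hG hGd hGr fun m m' hmm' => ?_
    rcases hm m m' hmm' with h | h
    · exact Or.inl fun h' => h (monAlg_trs hc h')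
    · exact Or.inr fun h' => h (monAlg_trs hc h')
  · intro hm hl
    refine h3 (fun m hm0 h' => hm m hm0 (monAlg_trs hc h')) ?_
    rintro ⟨l, f, hl0, hf, hlim⟩
    obtain ⟨f', hf', hlim'⟩ := limOne_sh hf hl0 hlim
    exact hl ⟨l, f', hl0, hf', hlim'⟩

end Pool.Agent.Q72.EG
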