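import Pool.Agent.Q72.EG.Asm
import Pool.Agent.Q72.EG.Tr
import Pool.Agent.Q166.EG.Lift
import Pool.Agent.Q111.EG.SEP
import Pool.Agent.Q251.EG.Lift
import Pool.Agent.Q239.EG.CONT
import Pool.Agent.Q177.EG.Log
import Pool.Agent.Q252.EG.Fix
import Pool.Agent.Q239.EG.SOLVE
import Pool.Agent.Q252.EG.Elim
import Pool.Agent.Q252.EG.Norm
import Pool.Agent.Q96.EG.Grow
import Pool.Agent.Q96.EG.Tame
import Pool.Agent.Q151.EG.Ends
import Pool.Agent.Q210.EG.Cone
import Pool.Agent.Q210.EG.Ell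
import Pool.Agent.Q210.EG.Slc
import Pool.Agent.Q151.EG.NR
import Pool.Agent.Q98.EG.NRE
import Pool.Agent.Q98.EG.FLD
import Pool.Agent.Q206.EG.Dom
import Pool.Agent.Q206.EG.Slope
import Pool.Agent.Q206.EG.Newt
import Pool.Agent.Q206.EG.Ann
import Pool.Agent.Q206.EG.Val
import Pool.Agent.Q206.EG.Fin
import Pool.Agent.Q251.EG.Region

/-! Project EG (helper72): all parts. -/

set_option autoImplicit false

namespace Pool.Agent.Q72.EG

theorem all_lift : S_lift :=
  Pool.Agent.Q251.EG.lift Pool.Agent.Q206.EG.dom Pool.Agent.Q206.EG.slope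
    (Pool.Agent.Q206.EG.newt Pool.Agent.Q206.EG.ann) Pool.Agent.Q206.EG.val
    Pool.Agent.Q166.EG.lift0 Pool.Agent.Q111.EG.sep

theorem all_cont : S_cont := Pool.Agent.Q239.EG.cont Pool.Agent.Q206.EG.dom Pool.Agent.Q166.EG.alg

theorem all_solve : S_solve :=
  Pool.Agent.Q239.EG.solve all_lift all_cont (Pool.Agent.Q210.EG.slc Pool.Agent.Q206.EG.slope)
    Pool.Agent.Q177.EG.log Pool.Agent.Q177.EG.bc Pool.Agent.Q252.EG.fix

theorem all_region : S_region :=
  Pool.Agent.Q251.EG.region Pool.Agent.Q252.EG.elim Pool.Agent.Q252.EG.norm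

theorem all_tame : S_tame := Pool.Agent.Q96.EG.tame Pool.Agent.Q96.EG.grow

theorem all_core : S_core := t_core all_tame all_region all_solve

theorem all_ends : S_ends := Pool.Agent.Q151.EG.ends

theorem all_dich : S_dich := t_dich all_core all_ends (Pool.Agent.Q206.EG.fin Pool.Agent.Q206.EG.val)
  Pool.Agent.Q210.EG.cone

theorem all_VV : S_VV := t_VV all_core all_ends Pool.Agent.Q210.EG.ell Pool.Agent.Q151.EG.nr
  (Pool.Agent.Q98.EG.nre all_ends) all_dich Pool.Agent.Q98.EG.fld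

end Pool.Agent.Q72.EG
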