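import Pool.Agent.Q72.EG.Stm2
import Pool.Agent.W996.EC.Final

/-!
Project EG (helper72): assembly.
-/

set_option autoImplicit false

namespace Pool.Agent.Q72.EG

open MvPolynomial Filter Topology Metric Pool.Agent.W996.EC Pool.Agent

theorem t_core (h1 : S_tame) (h2 : S_region) (h3 : S_solve) : S_core := by
  intro n E _ _ G H hH hno q hq
  by_contra hs
  obtain ⟨z, hz, hz2⟩ := h3 n E G H hH (h2 n G.P q G.a G.hP (h1 n G.P q G.hP.ne_zero hq) hs)
  exact hz2 (hno z hz)

/-- Theorem A of the starting library. -/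
theorem thmA : Pool.Agent.W996.EC.S_A := by
  have pt := W578.ECPt.t_pt
  have join := W578.ECPt.t_join
  have unif := W918.ECUnif.t_unif
  have hurN := W918.ECUnif.t_hurN
  have cpt := W505.EC.t_cpt
  have diag := W505.EC.t_diag
  have clos := W565.EC.t_clos diag join
  have top := W565.EC.t_top
  have hom := W565.EC.t_hom clos pt
  have newt := W565.EC.t_newt pt
  have pow := W721.EC.t_pow
  have univ := W721.EC.t_univ
  have class' := W565.EC.t_class pt clos top hom pow newt univ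
  have ek := W505.EC.t_ek clos top class' cpt hurN join
  exact W565.EC.t_A clos top class' ek

theorem irr_deg {n : ℕ} {P : MvPolynomial (Fin n) ℂ} (hP : Irreducible P) : 1 ≤ P.totalDegree := by
  by_contra h
  have h0 : P.totalDegree = 0 := by omega
  rw [totalDegree_eq_zero_iff_eq_C] at h0
  have hc : coeff 0 P ≠ 0 := by
    intro hc
    rw [hc, map_zero] at h0
    exact hP.ne_zero h0
  apply hP.not_isUnit
  rw [h0]
  exact (IsUnit.mk0 _ hc).map C

theorem t_dich (h1 : S_core) (h2 : S_ends) (h3 : S_fin) (h4 : S_cone) : S_dich := by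
  intro n E _ _ P x y hP hx hy htr hm H hH hno
  set A : Set (Fin n → ℝ) := {a | ∃ G : Gen n E, G.P = P ∧ G.x = x ∧ G.y = y ∧ G.a = a} with hA
  have hpos : PosSpan A := by
    refine h4 n A (h3 n E P x y) ?_ ?_
    · rintro _ ⟨G, -, -, -, rfl⟩ l
      exact ⟨(G.b l : ℚ) / G.N, by simp [Gen.a]⟩
    · intro m hm0
      obtain ⟨G, e1, e2, e3, hG⟩ := h2 n E P x y hP hx hy htr m (hm m hm0)
      exact ⟨G.a, ⟨G, e1, e2, e3, rfl⟩, hG⟩
  have hyp : Hyp A P := by
    refine ⟨hpos, fun q hq => ?_⟩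
    rintro _ ⟨G, e1, e2, e3, rfl⟩ κ
    have h5 := h1 n E G H (by rw [e2, e3]; exact hH) (by rw [e2, e3]; exact hno) q
      (by rw [e1]; exact hq)
    exact h5 G.a rfl κ
  exact thmA n A P hyp (irr_deg hP)

theorem single_prod {n : ℕ} {E : Type} [Field E] (y : Fin n → E) (l : Fin n) :
    ∏ k, y k ^ ((Pi.single l 1 : Fin n → ℤ) k) = y l := by
  rw [Finset.prod_eq_single l]
  · simp
  · intro b _ hb
    rw [Pi.single_eq_of_ne hb]; simp
  · intro h; exact absurd (Finset.mem_univ _) h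

theorem t_VV (hcore : S_core) (hends : S_ends) (hell : S_ell) (hnr : S_nr) (hnre : S_nre)
    (hdich : S_dich) (hfld : S_fld) : S_VV := by
  intro n I V P hV hdim hproj
  obtain ⟨E, iE, aE, x, y, hxy, hpt, hx, hy, htr, ⟨l, hl⟩, hmon⟩ := hfld n I V P hV hdim hproj
  have hP := hproj.1
  -- reduction
  have red : ∀ H : MvPolynomial (Fin n ⊕ Fin n) ℂ,
      (¬ ∃ z : Fin n → ℂ, Sum.elim z (fun l => Complex.exp (z l)) ∈ V ∧
        eval (Sum.elim z (fun l => Complex.exp (z l))) H ≠ 0) → NoExp x y H := by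
    intro H hno z hz
    by_contra hne
    refine hno ⟨z, (hpt _).mpr ⟨hz, fun j => ?_⟩, hne⟩
    exact Complex.exp_ne_zero _
  have hH0 : ∀ H : MvPolynomial (Fin n ⊕ Fin n) ℂ, (∃ p ∈ V, eval p H ≠ 0) →
      aeval (Sum.elim x y) H ≠ 0 := by
    rintro H ⟨p, hp, hpH⟩ h
    exact hpH ((hxy H).mp h p hp)
  refine ⟨?_, ?_, ?_⟩
  · intro hn hel H hH
    by_contra hno
    have h1 := red H hno
    obtain ⟨G, e1, e2, e3, hG⟩ := hends n E P x y hP hx hy htr (Pi.single l 1)
      (by rw [single_prod]; exact hl)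
    have ha : G.a ≠ 0 := by
      intro h
      rw [h] at hG
      simp at hG
    obtain ⟨q, hq, hs⟩ := hell n P G.a hn (irr_deg hP) ha hel
    apply hs
    exact hcore n E G H (by rw [e2, e3]; exact hH0 H hH) (by rw [e2, e3]; exact h1) q
      (by rw [e1]; exact hq)
  · intro G hG hGd hGr hmm H hH
    by_contra hno
    have h1 := red H hno
    obtain ⟨Gn, e1, e2, e3, hinv⟩ := hnre n E P x y G hP hx hy htr (by
      intro m m' hmm'
      rcases hmm m m' hmm' with h | h
      · exact Or.inl (hmon m h)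
      · exact Or.inr (hmon m' h)) hG hGd hGr
    obtain ⟨q, hq, hs⟩ := hnr n P G Gn.a hP.ne_zero hG hGd hGr hinv
    apply hs
    exact hcore n E Gn H (by rw [e2, e3]; exact hH0 H hH) (by rw [e2, e3]; exact h1) q
      (by rw [e1]; exact hq)
  · intro hm hlim H hH
    by_contra hno
    exact hlim (hdich n E P x y hP hx hy htr (fun m hm0 => hmon m (hm m hm0)) H (hH0 H hH)
      (red H hno))

end Pool.Agent.Q72.EG
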