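import Mathlib
import Pool.Agent.W996.EC.Defs

/-!
Project EG (helper72): exponential points on varieties whose projection to `ℂ^n` is a hypersurface.
Definitions.
-/

set_option autoImplicit false

namespace Pool.Agent.Q72.EG

open MvPolynomial Filter Topology Metric Pool.Agent.W996.EC

/-- the complex points of the variety with generic point `ξ` -/
def Pt {E : Type} [Field E] [Algebra ℂ E] {σ : Type} (ξ : σ → E) : Set (σ → ℂ) :=
  {p | ∀ g : MvPolynomial σ ℂ, aeval ξ g = 0 → eval p g = 0}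

/-- the point `(x, Y)`; `Y` is the coordinate with index `none` -/
def oe {α : Type} {n : ℕ} (Y : α) (x : Fin n → α) : Option (Fin n) → α := fun o => o.elim Y x

@[simp] theorem oe_none {α : Type} {n : ℕ} (Y : α) (x : Fin n → α) : oe Y x none = Y := rfl
@[simp] theorem oe_some {α : Type} {n : ℕ} (Y : α) (x : Fin n → α) (l : Fin n) :
    oe Y x (some l) = x l := rfl

/-- the coefficient of `Y^j` in the polynomial `H(x, Y)` -/
noncomputable def cf {n : ℕ} (H : MvPolynomial (Option (Fin n)) ℂ) (j : ℕ) :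
    MvPolynomial (Fin n) ℂ :=
  (optionEquivLeft ℂ (Fin n) H).coeff j

theorem aeval_oe {E : Type} [CommRing E] [Algebra ℂ E] {n : ℕ} (Y : E) (x : Fin n → E)
    (H : MvPolynomial (Option (Fin n)) ℂ) :
    aeval (oe Y x) H =
      (optionEquivLeft ℂ (Fin n) H).eval₂ (aeval x : MvPolynomial (Fin n) ℂ →ₐ[ℂ] E).toRingHom
        Y := by
  induction H using MvPolynomial.induction_on with
  | C c => simp [optionEquivLeft_C]
  | add p q hp hq => rw [map_add, map_add, Polynomial.eval₂_add, hp, hq]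
  | mul_X p i hp =>
    rw [map_mul, map_mul, Polynomial.eval₂_mul, hp, aeval_X]
    rcases i with _ | i
    · rw [optionEquivLeft_X_none, Polynomial.eval₂_X]; rfl
    · rw [optionEquivLeft_X_some, Polynomial.eval₂_C]
      congr 1
      simp [oe]

theorem aeval_oe_sum {E : Type} [CommRing E] [Algebra ℂ E] {n : ℕ} (Y : E) (x : Fin n → E)
    (H : MvPolynomial (Option (Fin n)) ℂ) :
    aeval (oe Y x) H =
      ∑ j ∈ Finset.range ((optionEquivLeft ℂ (Fin n) H).natDegree + 1), aeval x (cf H j) * Y ^ j := by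
  rw [aeval_oe, Polynomial.eval₂_eq_sum_range]
  rfl

theorem eval_oe_sum {n : ℕ} (Y : ℂ) (x : Fin n → ℂ) (H : MvPolynomial (Option (Fin n)) ℂ) :
    eval (oe Y x) H =
      ∑ j ∈ Finset.range ((optionEquivLeft ℂ (Fin n) H).natDegree + 1), eval x (cf H j) * Y ^ j := by
  have h := aeval_oe_sum Y x H
  simp only [MvPolynomial.coe_aeval_eq_eval, MvPolynomial.aeval_eq_eval] at h
  exact h

/-- admissible points over the hypersurface `P = 0`: `x` is at most of size `T^D`, the polynomial `R` is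
at least of size `T^{-D}` at `x`, `Y` is at most of size `T^{-K}` -/
def Adm {n : ℕ} (P R : MvPolynomial (Fin n) ℂ) (D K T : ℝ) (x : Fin n → ℂ) (Y : ℂ) : Prop :=
  eval x P = 0 ∧ Y ≠ 0 ∧ ‖x‖ ≤ T ^ D ∧ T ^ (-D) ≤ ‖eval x R‖ ∧ ‖Y‖ ≤ T ^ (-K)

theorem Adm.mono {n : ℕ} {P R : MvPolynomial (Fin n) ℂ} {D K K' T : ℝ} {x : Fin n → ℂ} {Y : ℂ}
    (h : Adm P R D K' T x Y) (hK : K ≤ K') (hT : 1 ≤ T) : Adm P R D K T x Y := by
  obtain ⟨h1, h2, h3, h4, h5⟩ := h
  exact ⟨h1, h2, h3, h4, h5.trans (Real.rpow_le_rpow_of_exponent_le hT (neg_le_neg hK))⟩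

/-- the function field `E` of a variety `V ⊆ ℂ^n × (ℂ^*)^n` over the hypersurface `P = 0`, together
with an end `O` of the generic fibre, a curve; `Y = y_{i0}^ε` tends to `0` on this end,
`y_l` has the order `b_l / N` with respect to `Y` -/
structure Gen (n : ℕ) (E : Type) [Field E] [Algebra ℂ E] where
  P : MvPolynomial (Fin n) ℂ
  hP : Irreducible P
  x : Fin n → E
  y : Fin n → E
  hx : ∀ g : MvPolynomial (Fin n) ℂ, aeval x g = 0 ↔ P ∣ g
  hy : ∀ l, y l ≠ 0
  O : ValuationSubring E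
  hO : ∀ g : MvPolynomial (Fin n) ℂ, ¬ P ∣ g → O.valuation (aeval x g) = 1
  i0 : Fin n
  ε : ℤ
  hε : ε = 1 ∨ ε = -1
  hY : O.valuation (y i0 ^ ε) < 1
  N : ℕ
  hN : 0 < N
  b : Fin n → ℤ
  hb : ∀ l, O.valuation (y l) ^ N = O.valuation (y i0 ^ ε) ^ (b l)
  halg : ∀ l, IsAlgebraic (IntermediateField.adjoin ℂ (Set.range (oe (y i0 ^ ε) x))) (y l)

/-- the direction of the end -/
noncomputable def Gen.a {n : ℕ} {E : Type} [Field E] [Algebra ℂ E] (G : Gen n E) : Fin n → ℝ :=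
  fun l => (G.b l : ℝ) / G.N

/-- `E` has transcendence degree at most one over `ℂ(x)` -/
def Tr1 {n : ℕ} {E : Type} [Field E] [Algebra ℂ E] (x : Fin n → E) : Prop :=
  ∀ f g : E, Transcendental (IntermediateField.adjoin ℂ (Set.range x)) f →
    IsAlgebraic (IntermediateField.adjoin ℂ (insert f (Set.range x))) g

/-- limits of `c_j P(λ_j x + i k_j)` with `λ_j → ∞` much faster than the logarithm of `|k_j|` -/
def LimT {n : ℕ} (P q : MvPolynomial (Fin n) ℂ) : Prop :=
  q ≠ 0 ∧ ∃ (lam : ℕ → ℝ) (k : ℕ → Fin n → ℝ) (c : ℕ → ℂ), (∀ j, 0 < lam j) ∧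
    Tendsto lam atTop atTop ∧
    Tendsto (fun j => lam j / Real.log (2 + lam j + ‖k j‖)) atTop atTop ∧
    Conv (fun j => C (c j) * tr (lam j) (k j) P) q

/-- arbitrarily far away there are integral points `2πi M` and holomorphic pieces
`u + w(u) a` of the hypersurface over a large ball around `2πi M`, with `Re w(u)` very negative -/
def HasRegion {n : ℕ} (P : MvPolynomial (Fin n) ℂ) (a : Fin n → ℝ) : Prop :=
  ∀ R : MvPolynomial (Fin n) ℂ, ¬ P ∣ R → ∃ D : ℝ, ∀ K : ℝ, ∃ T : ℝ, K ≤ T ∧ 2 ≤ T ∧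
    ∃ (M : Fin n → ℤ) (w : (Fin n → ℂ) → ℂ),
      DifferentiableOn ℂ w
        (ball (fun l => 2 * Real.pi * Complex.I * (M l : ℂ)) (K * Real.log T)) ∧
      ∀ u ∈ ball (fun l => 2 * Real.pi * Complex.I * (M l : ℂ) : Fin n → ℂ) (K * Real.log T),
        eval (fun l => u l + w u * (a l : ℂ)) P = 0 ∧
        (w u).re ≤ -(K * Real.log T) ∧
        ‖(fun l => u l + w u * (a l : ℂ) : Fin n → ℂ)‖ ≤ T ^ D ∧
        T ^ (-D) ≤ ‖eval (fun l => u l + w u * (a l : ℂ)) R‖

end Pool.Agent.Q72.EG
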