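import Pool.Agent.Q72.EG.All
import Pool.Agent.W973.EC.Dich

/-!
Project EG (helper72): families of systems over a hypersurface.
-/

set_option autoImplicit false

namespace Pool.Agent.Q72.EG

open MvPolynomial Filter Topology Metric Pool.Agent.W996.EC Pool.Agent

section field

variable {n : ℕ} {E : Type} [Field E] [Algebra ℂ E] {P : MvPolynomial (Fin n) ℂ} {x y : Fin n → E}

/-- the three cases -/
def Cases (P : MvPolynomial (Fin n) ℂ) (x y : Fin n → E) : Prop :=
  (2 ≤ n ∧ (∀ κ : Fin n → ℝ, κ ≠ 0 → eval (cx κ) (top P) ≠ 0) ∧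
    ∃ l, Transcendental (IntermediateField.adjoin ℂ (Set.range x)) (y l)) ∨
  ((∃ G, Irreducible G ∧ G ∣ top P ∧ ¬ ∃ c : ℂ, c ≠ 0 ∧ ∀ m, (coeff m (C c * G)).im = 0) ∧
    ∀ m m' : Fin n → ℤ, LinearIndependent ℤ ![m, m'] →
      Transcendental (IntermediateField.adjoin ℂ (Set.range x)) (∏ l, y l ^ m l) ∨
      Transcendental (IntermediateField.adjoin ℂ (Set.range x)) (∏ l, y l ^ m' l)) ∨
  ((∀ m : Fin n → ℤ, m ≠ 0 →
      Transcendental (IntermediateField.adjoin ℂ (Set.range x)) (∏ l, y l ^ m l)) ∧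
    ¬ ∃ (l : Fin n → ℝ) (f : Polynomial ℂ), l ≠ 0 ∧ 1 ≤ f.natDegree ∧
      LimOne P (Polynomial.aeval (lin l) f))

/-- the theorem in terms of the function field -/
theorem ff (hP : Irreducible P) (hx : ∀ g : MvPolynomial (Fin n) ℂ, aeval x g = 0 ↔ P ∣ g)
    (hy : ∀ l, y l ≠ 0) (htr : Tr1 x) (hc : Cases P x y) (H : MvPolynomial (Fin n ⊕ Fin n) ℂ)
    (hH : aeval (Sum.elim x y) H ≠ 0) :
    ∃ z : Fin n → ℂ, Sum.elim z (fun l => Complex.exp (z l)) ∈ Pt (Sum.elim x y) ∧
      eval (Sum.elim z (fun l => Complex.exp (z l))) H ≠ 0 := by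
  by_contra hno
  have h1 : NoExp x y H := by
    intro z hz
    by_contra hne
    exact hno ⟨z, hz, hne⟩
  rcases hc with ⟨hn, hel, l, hl⟩ | ⟨⟨G, hG, hGd, hGr⟩, hmm⟩ | ⟨hm, hlim⟩
  · obtain ⟨G, e1, e2, e3, hG⟩ := all_ends n E P x y hP hx hy htr (Pi.single l 1)
      (by rw [single_prod]; exact hl)
    have ha : G.a ≠ 0 := by
      intro h
      rw [h] at hG
      simp at hG
    obtain ⟨q, hq, hs⟩ := Pool.Agent.Q210.EG.ell n P G.a hn (irr_deg hP) ha hel
    apply hs
    exact all_core n E G H (by rw [e2, e3]; exact hH) (by rw [e2, e3]; exact h1) q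
      (by rw [e1]; exact hq)
  · obtain ⟨Gn, e1, e2, e3, hinv⟩ := Pool.Agent.Q98.EG.nre all_ends n E P x y G hP hx hy htr hmm
      hG hGd hGr
    obtain ⟨q, hq, hs⟩ := Pool.Agent.Q151.EG.nr n P G Gn.a hP.ne_zero hG hGd hGr hinv
    apply hs
    exact all_core n E Gn H (by rw [e2, e3]; exact hH) (by rw [e2, e3]; exact h1) q
      (by rw [e1]; exact hq)
  · exact hlim (all_dich n E P x y hP hx hy htr hm H hH h1)

/-- generic lifting of points -/
theorem lift_pt {τ κ : Type} [Finite τ] [Finite κ] (ζ : τ → E) (f : κ → E) (k0 : κ)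
    (halg : ∀ k, IsAlgebraic (IntermediateField.adjoin ℂ (Set.range ζ)) (f k)) :
    ∃ H : MvPolynomial τ ℂ, aeval ζ H ≠ 0 ∧ ∀ t ∈ Pt ζ, eval t H ≠ 0 →
      ∃ p ∈ Pt (Sum.elim ζ f), ∀ i, p (Sum.inl i) = t i := by
  obtain ⟨A, H, hH, ⟨b, hb⟩, hA, hl⟩ := Pool.Agent.Q166.EG.lift0 E τ κ ζ f k0 halg
  set q : Polynomial E := A.map (aeval ζ : MvPolynomial τ ℂ →ₐ[ℂ] E).toRingHom with hq
  have hq0 : q ≠ 0 := by
    intro h
    apply hb
    have := congrArg (fun r => Polynomial.coeff r b) h
    simpa [hq, Polynomial.coeff_map] using this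
  have hroot : q.IsRoot (f k0) := hA
  have hdeg : 0 < q.natDegree := by
    apply Polynomial.natDegree_pos_iff_degree_pos.2
    exact Polynomial.degree_pos_of_root hq0 hroot
  have hlead : aeval ζ (A.coeff q.natDegree) ≠ 0 := by
    have h1 : q.coeff q.natDegree ≠ 0 := by
      rw [Polynomial.coeff_natDegree]
      exact Polynomial.leadingCoeff_ne_zero.2 hq0
    rw [hq, Polynomial.coeff_map] at h1
    exact h1
  refine ⟨H * A.coeff q.natDegree, by rw [map_mul]; exact mul_ne_zero hH hlead, ?_⟩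
  intro t ht hne
  rw [map_mul] at hne
  have h1 : (A.map (eval t)).degree ≠ 0 := by
    have h2 : (A.map (eval t)).coeff q.natDegree ≠ 0 := by
      rw [Polynomial.coeff_map]; exact right_ne_zero_of_mul hne
    have h3 := Polynomial.le_degree_of_ne_zero h2
    intro h4
    rw [h4] at h3
    have : q.natDegree ≤ 0 := by exact_mod_cast h3
    omega
  obtain ⟨z, hz⟩ := IsAlgClosed.exists_root _ h1
  obtain ⟨p, hp, hpi, -⟩ := hl t ht (left_ne_zero_of_mul hne) z hz
  exact ⟨p, hp, hpi⟩

end field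

/-! ### families with entire coefficients -/

/-- polynomials with entire coefficients -/
def Ent {σ : Type} (φ : ℂ → MvPolynomial σ ℂ) : Prop :=
  ∃ (ι : Type) (_ : Fintype ι) (f : ι → ℂ → ℂ) (a : ι → MvPolynomial σ ℂ),
    (∀ k, Differentiable ℂ (f k)) ∧ ∀ s, φ s = ∑ k, C (f k s) * a k

namespace Ent

variable {σ : Type} {φ ψ : ℂ → MvPolynomial σ ℂ}

theorem sub (h : Ent φ) (h' : Ent ψ) : Ent (fun s => φ s - ψ s) := by
  obtain ⟨ι, _, f, a, hf, ha⟩ := h
  obtain ⟨ι', _, f', a', hf', ha'⟩ := h'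
  refine ⟨ι ⊕ ι', inferInstance, Sum.elim f f', Sum.elim a (fun k => -a' k), ?_, ?_⟩
  · rintro (k | k)
    · exact hf k
    · exact hf' k
  · intro s
    simp only [ha, ha', Fintype.sum_sum_type, Sum.elim_inl, Sum.elim_inr]
    rw [sub_eq_add_neg, ← Finset.sum_neg_distrib]
    congr 1
    exact Finset.sum_congr rfl fun k _ => by ring

theorem mul (h : Ent φ) (h' : Ent ψ) : Ent (fun s => φ s * ψ s) := by
  obtain ⟨ι, _, f, a, hf, ha⟩ := h
  obtain ⟨ι', _, f', a', hf', ha'⟩ := h'
  refine ⟨ι × ι', inferInstance, fun k s => f k.1 s * f' k.2 s, fun k => a k.1 * a' k.2, ?_, ?_⟩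
  · rintro ⟨k, k'⟩
    exact (hf k).mul (hf' k')
  · intro s
    simp only [ha, ha', Fintype.sum_prod_type, Finset.sum_mul_sum]
    refine Finset.sum_congr rfl fun k _ => Finset.sum_congr rfl fun k' _ => ?_
    rw [C_mul]; ring

theorem one : Ent (fun _ => (1 : MvPolynomial σ ℂ)) :=
  ⟨Unit, inferInstance, fun _ _ => 1, fun _ => 1, fun _ => differentiable_const _, fun s => by simp⟩

theorem pow (h : Ent φ) (m : ℕ) : Ent (fun s => φ s ^ m) := by
  induction m with
  | zero => simpa using one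
  | succ m ih => simpa only [pow_succ] using ih.mul h

theorem prod {ι : Type} (S : Finset ι) {Φ : ι → ℂ → MvPolynomial σ ℂ} (h : ∀ i, Ent (Φ i)) :
    Ent (fun s => ∏ i ∈ S, Φ i s) := by
  classical
  induction S using Finset.induction_on with
  | empty => simpa using one
  | insert i S hi ih =>
    simp only [Finset.prod_insert hi]
    exact (h i).mul ih

theorem pderiv (h : Ent φ) (i : σ) : Ent (fun s => MvPolynomial.pderiv i (φ s)) := by
  obtain ⟨ι, _, f, a, hf, ha⟩ := h
  refine ⟨ι, inferInstance, f, fun k => MvPolynomial.pderiv i (a k), hf, fun s => ?_⟩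
  simp only [ha, map_sum]
  exact Finset.sum_congr rfl fun k _ => by rw [pderiv_C_mul]

/-- divisibility by `Q` holds for countably many `s` only, if it fails once -/
theorem countable (h : Ent φ) (Q : MvPolynomial σ ℂ) {s0 : ℂ} (h0 : ¬ Q ∣ φ s0) :
    {s | Q ∣ φ s}.Countable := by
  obtain ⟨ι, _, f, a, hf, ha⟩ := h
  set M := MvPolynomial σ ℂ ⧸ (Ideal.span {Q}) with hM
  have h1 : (Ideal.Quotient.mkₐ ℂ (Ideal.span {Q})) (φ s0) ≠ 0 := by
    intro hz
    apply h0
    rw [← Ideal.mem_span_singleton]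
    exact Ideal.Quotient.eq_zero_iff_mem.1 hz
  have h2 : ∃ L : Module.Dual ℂ (MvPolynomial σ ℂ ⧸ (Ideal.span {Q})),
      L ((Ideal.Quotient.mkₐ ℂ (Ideal.span {Q})) (φ s0)) ≠ 0 := by
    by_contra hcon
    push Not at hcon
    exact h1 ((Module.forall_dual_apply_eq_zero_iff ℂ _).1 hcon)
  obtain ⟨L, hL⟩ := h2
  have h3 : ∀ s, L ((Ideal.Quotient.mkₐ ℂ (Ideal.span {Q})) (φ s)) =
      ∑ k, f k s * L ((Ideal.Quotient.mkₐ ℂ (Ideal.span {Q})) (a k)) := by
    intro s
    rw [ha, map_sum, map_sum]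
    refine Finset.sum_congr rfl fun k _ => ?_
    rw [← smul_eq_C_mul, map_smul, map_smul, smul_eq_mul]
  have hd : Differentiable ℂ fun s => L ((Ideal.Quotient.mkₐ ℂ (Ideal.span {Q})) (φ s)) := by
    simp only [h3]
    exact Differentiable.fun_sum fun k _ => (hf k).mul_const _
  refine (_root_.W973.EC.zeros_countable hd hL).mono ?_
  intro s hs
  have h4 : (Ideal.Quotient.mkₐ ℂ (Ideal.span {Q})) (φ s) = 0 :=
    Ideal.Quotient.eq_zero_iff_mem.2 (Ideal.mem_span_singleton.2 hs)
  show L _ = 0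
  rw [h4, map_zero]

end Ent

/-! ### dependence on the parameter of the curves -/

section dep

variable {n : ℕ}

theorem hasDerivAt_eval (x0 : Fin n → ℂ) (t0 : ℂ) (U : MvPolynomial (Option (Fin n)) ℂ) :
    HasDerivAt (fun t => eval (oe t x0) U) (eval (oe t0 x0) (pderiv none U)) t0 := by
  classical
  induction U using MvPolynomial.induction_on with
  | C c => simpa using hasDerivAt_const t0 c
  | add p q hp hq => 
    simp only [map_add]
    exact hp.add hq
  | mul_X p i hp =>
    rcases i with _ | i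
    · have h1 : HasDerivAt (fun t => eval (oe t x0) p * t)
          (eval (oe t0 x0) (pderiv none p) * t0 + eval (oe t0 x0) p * 1) t0 :=
        hp.mul (hasDerivAt_id' t0)
      simp only [map_mul, eval_X, oe_none, Derivation.leibniz, pderiv_X_self, smul_eq_mul, mul_one,
        map_add]
      rw [add_comm, mul_comm t0]
      rw [mul_one] at h1
      exact h1
    · have h1 := hp.mul_const (x0 i)
      have h2 : pderiv (none : Option (Fin n)) (X (some i) : MvPolynomial (Option (Fin n)) ℂ) = 0 :=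
        pderiv_X_of_ne (by simp)
      simp only [map_mul, eval_X, oe_some, Derivation.leibniz, h2, smul_eq_mul, mul_zero,
        map_add, map_zero, zero_add]
      rw [mul_comm (x0 i)]
      exact h1

theorem ren_dvd {P g : MvPolynomial (Fin n) ℂ} :
    (rename some P : MvPolynomial (Option (Fin n)) ℂ) ∣ rename some g ↔ P ∣ g := by
  constructor
  · rintro ⟨h, hh⟩
    have h1 := congrArg (aeval (oe (0 : MvPolynomial (Fin n) ℂ) X)) hh
    rw [map_mul, aeval_rename, aeval_rename] at h1
    have h2 : (oe (0 : MvPolynomial (Fin n) ℂ) X) ∘ some = X := rfl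
    rw [h2, aeval_X_left, AlgHom.id_apply, AlgHom.id_apply] at h1
    exact ⟨_, h1⟩
  · exact map_dvd _

theorem ren_prime {P : MvPolynomial (Fin n) ℂ} (hP : Irreducible P) :
    Prime (rename some P : MvPolynomial (Option (Fin n)) ℂ) := by
  have h2 : Prime (Polynomial.C P : Polynomial (MvPolynomial (Fin n) ℂ)) :=
    Polynomial.prime_C_iff.2 hP.prime
  have h3 : ∀ Q : MvPolynomial (Fin n) ℂ,
      optionEquivLeft ℂ (Fin n) (rename some Q) = Polynomial.C Q := by
    intro Q
    induction Q using MvPolynomial.induction_on with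
    | C c => simp [optionEquivLeft_C]
    | add p q hp hq => rw [map_add, map_add, hp, hq, Polynomial.C_add]
    | mul_X p i hp => rw [map_mul, map_mul, hp, rename_X, optionEquivLeft_X_some, Polynomial.C_mul]
  rw [← h3] at h2
  exact (MulEquiv.prime_iff (optionEquivLeft ℂ (Fin n)).toMulEquiv).1 h2

variable {E : Type} [Field E] [Algebra ℂ E] {P : MvPolynomial (Fin n) ℂ}

theorem exists_pt (hP : Irreducible P) {G : MvPolynomial (Option (Fin n)) ℂ}
    (hG : ¬ rename some P ∣ G) : ∃ (t : ℂ) (x : Fin n → ℂ), eval x P = 0 ∧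
      eval (oe t x) G ≠ 0 := by
  have hpr : (Ideal.span {(rename some P : MvPolynomial (Option (Fin n)) ℂ)}).IsPrime :=
    (Ideal.span_singleton_prime (ren_prime hP).ne_zero).2 (ren_prime hP)
  by_contra hcon
  push Not at hcon
  have h1 := Pool.Agent.W333.ECV.nullst _ hpr G (fun h => hG (Ideal.mem_span_singleton.1 h)) 1
    (by
      intro p hp hpG
      exfalso
      apply hpG
      have e : p = oe (p none) (fun i => p (some i)) := by
        funext i; rcases i with _ | i <;> rfl
      rw [e]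
      apply hcon
      have h2 := hp _ (Ideal.mem_span_singleton_self _)
      rw [eval_rename] at h2
      exact h2)
  exact hpr.ne_top ((Ideal.eq_top_iff_one _).2 h1)

theorem alg_deriv (hP : Irreducible P) (ξ : Option (Fin n) → E)
    (hξ : ∀ f : MvPolynomial (Option (Fin n)) ℂ, aeval ξ f = 0 ↔ rename some P ∣ f)
    (U V : MvPolynomial (Option (Fin n)) ℂ) (hV : ¬ rename some P ∣ V)
    (h : IsAlgebraic (IntermediateField.adjoin ℂ (Set.range fun i => ξ (some i)))
      (aeval ξ U / aeval ξ V)) :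
    rename some P ∣ pderiv none U * V - U * pderiv none V := by
  by_contra hD
  obtain ⟨A, ⟨b, hb⟩, hA⟩ := Pool.Agent.Q206.EG.alg_poly _ _ h
  have hv : aeval ξ V ≠ 0 := fun h => hV ((hξ V).1 h)
  set N := A.natDegree with hN
  set F : MvPolynomial (Option (Fin n)) ℂ :=
    ∑ b ∈ Finset.range (N + 1), rename some (A.coeff b) * U ^ b * V ^ (N - b) with hF
  have hF0 : rename some P ∣ F := by
    rw [← hξ, hF, map_sum]
    have e1 : ∀ b ∈ Finset.range (N + 1), aeval ξ (rename some (A.coeff b) * U ^ b * V ^ (N - b)) =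
        aeval ξ V ^ N * (aeval (fun i => ξ (some i)) (A.coeff b) *
          (aeval ξ U / aeval ξ V) ^ b) := by
      intro b hb
      rw [Finset.mem_range] at hb
      rw [map_mul, map_mul, map_pow, map_pow, aeval_rename, div_pow]
      have e2 : aeval ξ V ^ N = aeval ξ V ^ (N - b) * aeval ξ V ^ b := by
        rw [← pow_add]; congr 1; omega
      rw [e2]
      have h3 : aeval ξ V ^ b ≠ 0 := pow_ne_zero _ hv
      have e3 : (ξ ∘ some) = fun i => ξ (some i) := rfl
      rw [e3]
      field_simp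
    rw [Finset.sum_congr rfl e1, ← Finset.mul_sum]
    rw [Polynomial.eval_map, Polynomial.eval₂_eq_sum_range] at hA
    rw [show (∑ i ∈ Finset.range (N + 1), aeval (fun i => ξ (some i)) (A.coeff i) *
      (aeval ξ U / aeval ξ V) ^ i) = 0 from hA, mul_zero]
  have hcb : ¬ rename some P ∣ (rename some (A.coeff b) : MvPolynomial (Option (Fin n)) ℂ) := by
    rw [← hξ, aeval_rename]
    exact hb
  have hpr := ren_prime hP
  obtain ⟨t0, x0, hx0, hne⟩ := exists_pt hP (G := (pderiv none U * V - U * pderiv none V) * V *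
    rename some (A.coeff b)) (by
      intro h
      rcases hpr.dvd_or_dvd h with h | h
      · rcases hpr.dvd_or_dvd h with h | h
        · exact hD h
        · exact hV h
      · exact hcb h)
  rw [map_mul, map_mul] at hne
  have hne1 := left_ne_zero_of_mul (left_ne_zero_of_mul hne)
  have hne2 := right_ne_zero_of_mul (left_ne_zero_of_mul hne)
  have hne3 := right_ne_zero_of_mul hne
  set A0 : Polynomial ℂ := A.map (eval x0) with hA0
  have hA00 : A0 ≠ 0 := by
    intro h
    apply hne3
    have := congrArg (fun r => Polynomial.coeff r b) h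
    simp only [hA0, Polynomial.coeff_map, Polynomial.coeff_zero] at this
    rw [eval_rename]
    exact this
  have hder : HasDerivAt (fun t => eval (oe t x0) U / eval (oe t x0) V)
      ((eval (oe t0 x0) (pderiv none U) * eval (oe t0 x0) V -
        eval (oe t0 x0) U * eval (oe t0 x0) (pderiv none V)) / eval (oe t0 x0) V ^ 2) t0 :=
    (hasDerivAt_eval x0 t0 U).div (hasDerivAt_eval x0 t0 V) hne2
  have hder0 : (eval (oe t0 x0) (pderiv none U) * eval (oe t0 x0) V -
        eval (oe t0 x0) U * eval (oe t0 x0) (pderiv none V)) / eval (oe t0 x0) V ^ 2 ≠ 0 := by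
    rw [map_sub, map_mul, map_mul] at hne1
    exact div_ne_zero hne1 (pow_ne_zero _ hne2)
  have h1 := hder.eventually_ne (c := eval (oe t0 x0) U / eval (oe t0 x0) V) hder0
  have h2 : ∀ᶠ t in 𝓝[≠] t0, eval (oe t x0) V ≠ 0 :=
    nhdsWithin_le_nhds ((hasDerivAt_eval x0 t0 V).continuousAt.eventually_ne hne2)
  have h3 : ∀ᶠ t in 𝓝[≠] t0, eval (oe t x0) U / eval (oe t x0) V ∉
      ((A0.roots.toFinset.erase (eval (oe t0 x0) U / eval (oe t0 x0) V) : Finset ℂ) : Set ℂ) := by
    have hcl : IsClosed ((A0.roots.toFinset.erase (eval (oe t0 x0) U / eval (oe t0 x0) V) :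
      Finset ℂ) : Set ℂ) := (Finset.finite_toSet _).isClosed
    refine nhdsWithin_le_nhds (hder.continuousAt.eventually (hcl.isOpen_compl.mem_nhds ?_))
    simp
  obtain ⟨t, ht1, ht2, ht3⟩ := (h1.and (h2.and h3)).exists
  apply ht3
  rw [Finset.mem_coe, Finset.mem_erase]
  refine ⟨ht1, ?_⟩
  rw [Multiset.mem_toFinset, Polynomial.mem_roots hA00, Polynomial.IsRoot.def]
  obtain ⟨Q, hQ⟩ := hF0
  have h5 := congrArg (eval (oe t x0)) hQ
  rw [map_mul, eval_rename] at h5
  have h6 : eval (oe t x0 ∘ some) P = 0 := hx0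
  rw [h6, zero_mul, hF, map_sum] at h5
  have hVN : eval (oe t x0) V ^ N ≠ 0 := pow_ne_zero _ ht2
  apply mul_left_cancel₀ hVN
  rw [mul_zero, ← h5, Polynomial.eval_eq_sum_range' (n := N + 1)
    (by rw [hA0]; exact Nat.lt_succ_of_le (Polynomial.natDegree_map_le)), Finset.mul_sum]
  refine Finset.sum_congr rfl fun i hi => ?_
  rw [Finset.mem_range] at hi
  rw [map_mul, map_mul, map_pow, map_pow, eval_rename, hA0, Polynomial.coeff_map, div_pow]
  have e2 : eval (oe t x0) V ^ N = eval (oe t x0) V ^ (N - i) * eval (oe t x0) V ^ i := by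
    rw [← pow_add]; congr 1; omega
  rw [e2]
  have h3 : eval (oe t x0) V ^ i ≠ 0 := pow_ne_zero _ ht2
  have e3 : (oe t x0 ∘ some) = x0 := rfl
  rw [e3]
  field_simp

/-- the quotient `U / V` is not constant on the lines over the hypersurface -/
def DepT (P : MvPolynomial (Fin n) ℂ) (U V : MvPolynomial (Option (Fin n)) ℂ) : Prop :=
  ¬ rename some P ∣ pderiv none U * V - U * pderiv none V

/-- numerator of the monomial -/
noncomputable def num (A B : Fin n → MvPolynomial (Option (Fin n)) ℂ) (m : Fin n → ℤ) :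
    MvPolynomial (Option (Fin n)) ℂ := ∏ j, (A j ^ (m j).toNat * B j ^ (-m j).toNat)

theorem num_quot {A B : Fin n → MvPolynomial (Option (Fin n)) ℂ} (ξ : Option (Fin n) → E)
    (hA : ∀ j, aeval ξ (A j) ≠ 0) (hB : ∀ j, aeval ξ (B j) ≠ 0) (m : Fin n → ℤ) :
    ∏ j, (aeval ξ (A j) / aeval ξ (B j)) ^ m j = aeval ξ (num A B m) / aeval ξ (num B A m) := by
  unfold num
  rw [map_prod, map_prod, ← Finset.prod_div_distrib]
  refine Finset.prod_congr rfl fun j _ => ?_
  rw [map_mul, map_mul, map_pow, map_pow, map_pow, map_pow]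
  have h1 := hA j
  have h2 := hB j
  rcases le_total 0 (m j) with h | h
  · have e1 : (-m j).toNat = 0 := Int.toNat_of_nonpos (by omega)
    rw [e1, pow_zero, pow_zero, mul_one, mul_one, ← div_pow]
    conv_lhs => rw [← Int.toNat_of_nonneg h]
    rw [zpow_natCast]
  · have e1 : (m j).toNat = 0 := Int.toNat_of_nonpos h
    rw [e1, pow_zero, pow_zero, one_mul, one_mul, ← div_pow]
    have e2 : m j = -((-m j).toNat : ℤ) := by rw [Int.toNat_of_nonneg (by omega)]; ring
    conv_lhs => rw [e2]
    rw [zpow_neg, zpow_natCast, ← inv_pow, inv_div]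

/-- the three cases for a system `e^{x_j} = A_j(x, t) / B_j(x, t)`, `P(x) = 0` -/
def CasesT (P : MvPolynomial (Fin n) ℂ) (A B : Fin n → MvPolynomial (Option (Fin n)) ℂ) : Prop :=
  (2 ≤ n ∧ (∀ κ : Fin n → ℝ, κ ≠ 0 → eval (cx κ) (top P) ≠ 0) ∧ ∃ l, DepT P (A l) (B l)) ∨
  ((∃ G, Irreducible G ∧ G ∣ top P ∧ ¬ ∃ c : ℂ, c ≠ 0 ∧ ∀ m, (coeff m (C c * G)).im = 0) ∧
    ∀ m m' : Fin n → ℤ, LinearIndependent ℤ ![m, m'] →
      DepT P (num A B m) (num B A m) ∨ DepT P (num A B m') (num B A m')) ∨
  ((∀ m : Fin n → ℤ, m ≠ 0 → DepT P (num A B m) (num B A m)) ∧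
    ¬ ∃ (l : Fin n → ℝ) (f : Polynomial ℂ), l ≠ 0 ∧ 1 ≤ f.natDegree ∧
      LimOne P (Polynomial.aeval (lin l) f))

theorem not_dvd_num (hP : Irreducible P) {A B : Fin n → MvPolynomial (Option (Fin n)) ℂ}
    (hA : ∀ j, ¬ rename some P ∣ A j) (hB : ∀ j, ¬ rename some P ∣ B j) (m : Fin n → ℤ) :
    ¬ rename some P ∣ num A B m := by
  intro h
  unfold num at h
  obtain ⟨j, -, hj⟩ := ((ren_prime hP).dvd_finsetProd_iff _).1 h
  rcases (ren_prime hP).dvd_or_dvd hj with h | h
  · exact hA j ((ren_prime hP).dvd_of_dvd_pow h)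
  · exact hB j ((ren_prime hP).dvd_of_dvd_pow h)

/-- the system for a fixed parameter -/
theorem fixed (hn : 2 ≤ n) (hP : Irreducible P) (A B : Fin n → MvPolynomial (Option (Fin n)) ℂ)
    (hA : ∀ j, ¬ rename some P ∣ A j) (hB : ∀ j, ¬ rename some P ∣ B j) (hc : CasesT P A B)
    (G : MvPolynomial (Option (Fin n)) ℂ) (hG : ¬ rename some P ∣ G) :
    ∃ (x : Fin n → ℂ) (t : ℂ), eval x P = 0 ∧ eval (oe t x) G ≠ 0 ∧
      ∀ j, eval (oe t x) (B j) ≠ 0 ∧
        Complex.exp (x j) * eval (oe t x) (B j) = eval (oe t x) (A j) := by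
  have hpr0 := ren_prime hP
  have hpr : (Ideal.span {(rename some P : MvPolynomial (Option (Fin n)) ℂ)}).IsPrime :=
    (Ideal.span_singleton_prime hpr0.ne_zero).2 hpr0
  obtain ⟨E, iE, aE, ξ, hξ, hgen⟩ := Pool.Agent.W333.ECV.exists_field _ hpr
  have hξ' : ∀ f : MvPolynomial (Option (Fin n)) ℂ, aeval ξ f = 0 ↔ rename some P ∣ f := by
    intro f
    rw [hξ, Ideal.mem_span_singleton]
  set x : Fin n → E := fun i => ξ (some i) with hx
  set y : Fin n → E := fun j => aeval ξ (A j) / aeval ξ (B j) with hy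
  have hA' : ∀ j, aeval ξ (A j) ≠ 0 := fun j h => hA j ((hξ' _).1 h)
  have hB' : ∀ j, aeval ξ (B j) ≠ 0 := fun j h => hB j ((hξ' _).1 h)
  have hxP : ∀ g : MvPolynomial (Fin n) ℂ, aeval x g = 0 ↔ P ∣ g := by
    intro g
    rw [← ren_dvd, ← hξ', aeval_rename]
    rfl
  have hyn : ∀ l, y l ≠ 0 := fun l => div_ne_zero (hA' l) (hB' l)
  -- everything is algebraic over `ℂ(x, t)`
  have htop : IntermediateField.adjoin ℂ (Set.range ξ) = ⊤ := by
    rw [eq_top_iff]
    intro u _
    have hmem : ∀ f : MvPolynomial (Option (Fin n)) ℂ,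
        aeval ξ f ∈ IntermediateField.adjoin ℂ (Set.range ξ) := by
      intro f
      induction f using MvPolynomial.induction_on with
      | C a => rw [aeval_C]; exact IntermediateField.algebraMap_mem _ _
      | add p q hp hq => rw [map_add]; exact add_mem hp hq
      | mul_X p i hp =>
        rw [map_mul, aeval_X]
        exact mul_mem hp (IntermediateField.subset_adjoin _ _ ⟨i, rfl⟩)
    obtain ⟨f, g, hg, hu⟩ := hgen u
    rw [eq_div_of_mul_eq hg hu]
    exact div_mem (hmem f) (hmem g)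
  have hadd : IntermediateField.restrictScalars ℂ (IntermediateField.adjoin
      (IntermediateField.adjoin ℂ (Set.range x)) {ξ none}) = ⊤ := by
    rw [IntermediateField.adjoin_adjoin_left, ← htop]
    congr 1
    ext u
    constructor
    · rintro (⟨i, rfl⟩ | rfl)
      · exact ⟨some i, rfl⟩
      · exact ⟨none, rfl⟩
    · rintro ⟨i, rfl⟩
      rcases i with _ | i
      · exact Or.inr rfl
      · exact Or.inl ⟨i, rfl⟩
  have hadd' : IntermediateField.adjoin (IntermediateField.adjoin ℂ (Set.range x)) {ξ none} = ⊤ := by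
    rw [eq_top_iff]
    intro u _
    have : u ∈ IntermediateField.restrictScalars ℂ (IntermediateField.adjoin
      (IntermediateField.adjoin ℂ (Set.range x)) {ξ none}) := by rw [hadd]; trivial
    exact this
  have hE1 : Algebra.trdeg (IntermediateField.adjoin ℂ (Set.range x)) E ≤ 1 := by
    have : Algebra.IsAlgebraic
        (Algebra.adjoin (IntermediateField.adjoin ℂ (Set.range x)) ({ξ none} : Set E)) E := by
      rw [← IntermediateField.isAlgebraic_adjoin_iff_top, hadd']
      exact ⟨fun z => isAlgebraic_algebraMap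
        (⟨z, trivial⟩ : (⊤ : IntermediateField (IntermediateField.adjoin ℂ (Set.range x)) E))⟩
    have h1 := Algebra.IsAlgebraic.trdeg_le_cardinalMk (IntermediateField.adjoin ℂ (Set.range x))
      ({ξ none} : Set E)
    simpa using h1
  have htr : Tr1 x := by
    intro f g hf
    have h2 := Pool.Agent.Q98.EG.alg_of_trdeg_le_one hE1 f g hf
    have h3 : IsAlgebraic (IntermediateField.restrictScalars ℂ
        (IntermediateField.adjoin (IntermediateField.adjoin ℂ (Set.range x)) {f})) g := h2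
    rw [IntermediateField.adjoin_adjoin_left, Set.union_singleton] at h3
    exact h3
  have htrans : ∀ U V : MvPolynomial (Option (Fin n)) ℂ, ¬ rename some P ∣ V → DepT P U V →
      Transcendental (IntermediateField.adjoin ℂ (Set.range x)) (aeval ξ U / aeval ξ V) :=
    fun U V hV hd h => hd (alg_deriv hP ξ hξ' U V hV h)
  have hmon : ∀ m : Fin n → ℤ, DepT P (num A B m) (num B A m) →
      Transcendental (IntermediateField.adjoin ℂ (Set.range x)) (∏ l, y l ^ m l) := by
    intro m hm
    rw [hy, num_quot ξ hA' hB' m]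
    exact htrans _ _ (not_dvd_num hP hB hA m) hm
  have hcases : Cases P x y := by
    rcases hc with ⟨hn, hel, l, hl⟩ | ⟨hG', hmm⟩ | ⟨hm, hlim⟩
    · exact Or.inl ⟨hn, hel, l, htrans _ _ (hB l) hl⟩
    · exact Or.inr (Or.inl ⟨hG', fun m m' h => (hmm m m' h).imp (hmon m) (hmon m')⟩)
    · exact Or.inr (Or.inr ⟨fun m hm0 => hmon m (hm m hm0), hlim⟩)
  have hl : ∃ l, Transcendental (IntermediateField.adjoin ℂ (Set.range x)) (y l) := by
    rcases hcases with ⟨-, -, hl⟩ | ⟨-, hmm⟩ | ⟨hm, -⟩
    · exact hl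
    · have h1 : LinearIndependent ℤ ![(Pi.single (⟨0, by omega⟩ : Fin n) 1 : Fin n → ℤ),
          Pi.single (⟨1, by omega⟩ : Fin n) 1] := by
        rw [LinearIndependent.pair_iff]
        intro s t hst
        have h0 := congrFun hst ⟨0, by omega⟩
        have h1 := congrFun hst ⟨1, by omega⟩
        simp [Pi.single_apply] at h0 h1
        exact ⟨h0, h1⟩
      rcases hmm _ _ h1 with h | h
      · rw [single_prod] at h; exact ⟨_, h⟩
      · rw [single_prod] at h; exact ⟨_, h⟩
    · have h := hm (Pi.single (⟨0, by omega⟩ : Fin n) 1) (by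
        intro h
        have := congrFun h ⟨0, by omega⟩
        simp at this)
      rw [single_prod] at h
      exact ⟨_, h⟩
  obtain ⟨l, hl⟩ := hl
  have hle : IntermediateField.adjoin ℂ (insert (y l) (Set.range x)) ≤
      IntermediateField.adjoin ℂ (Set.range (Sum.elim x y)) := by
    apply IntermediateField.adjoin.mono
    rintro _ (rfl | ⟨i, rfl⟩)
    · exact ⟨Sum.inr l, rfl⟩
    · exact ⟨Sum.inl i, rfl⟩
  have halg : ∀ u : E, IsAlgebraic (IntermediateField.adjoin ℂ (Set.range (Sum.elim x y))) u := by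
    intro u
    have h1 := htr (y l) u hl
    obtain ⟨p, hp0, hp⟩ := h1
    refine ⟨p.map (IntermediateField.inclusion hle).toRingHom, ?_, ?_⟩
    · exact (Polynomial.map_ne_zero_iff (IntermediateField.inclusion hle).toRingHom.injective).2 hp0
    · rw [Polynomial.aeval_def, Polynomial.eval₂_map]
      rw [Polynomial.aeval_def] at hp
      exact hp
  set GB : MvPolynomial (Option (Fin n)) ℂ := G * ∏ j, B j with hGB
  have hGB0 : aeval ξ GB ≠ 0 := by
    rw [hGB, map_mul, map_prod]
    exact mul_ne_zero (fun h => hG ((hξ' _).1 h)) (Finset.prod_ne_zero_iff.2 fun j _ => hB' j)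
  set f : Fin 2 → E := ![ξ none, (aeval ξ GB)⁻¹] with hf
  obtain ⟨H, hH, hlift⟩ := lift_pt (Sum.elim x y) f 0 fun k => halg _
  obtain ⟨z, hz, hzH⟩ := ff hP hxP hyn htr hcases H hH
  obtain ⟨p, hp, hpi⟩ := hlift _ hz hzH
  set ι : Option (Fin n) → (Fin n ⊕ Fin n) ⊕ Fin 2 := fun o =>
    o.elim (Sum.inr 0) (fun i => Sum.inl (Sum.inl i)) with hι
  have hcomp : Sum.elim (Sum.elim x y) f ∘ ι = ξ := by
    funext o
    rcases o with _ | i
    · simp [hι, hf]
    · simp [hι, hx]
  have hcomp' : p ∘ ι = oe (p (Sum.inr 0)) z := by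
    funext o
    rcases o with _ | i
    · simp [hι]
    · simp only [hι, Function.comp, Option.elim_some, oe_some]
      rw [hpi]; rfl
  have hP0 : eval z P = 0 := by
    have h1 := hp (rename ι (rename some P)) (by
      rw [aeval_rename, hcomp]
      exact (hξ' _).2 dvd_rfl)
    rw [eval_rename, hcomp', eval_rename] at h1
    exact h1
  have hGB1 : eval (oe (p (Sum.inr 0)) z) GB * p (Sum.inr 1) = 1 := by
    have h1 := hp (rename ι GB * X (Sum.inr 1) - 1) (by
      rw [map_sub, map_mul, aeval_rename, hcomp, aeval_X, map_one]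
      simp [hf, hGB0])
    rw [map_sub, map_mul, eval_rename, hcomp', eval_X, map_one] at h1
    exact sub_eq_zero.1 h1
  have hGB2 : eval (oe (p (Sum.inr 0)) z) GB ≠ 0 := left_ne_zero_of_mul_eq_one hGB1
  rw [hGB, map_mul, map_prod] at hGB2
  refine ⟨z, p (Sum.inr 0), hP0, left_ne_zero_of_mul hGB2, fun j => ⟨?_, ?_⟩⟩
  · exact Finset.prod_ne_zero_iff.1 (right_ne_zero_of_mul hGB2) j (Finset.mem_univ j)
  · have h1 := hp (X (Sum.inl (Sum.inr j)) * rename ι (B j) - rename ι (A j)) (by
      rw [map_sub, map_mul, aeval_rename, aeval_rename, hcomp, aeval_X]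
      simp only [Sum.elim_inl, Sum.elim_inr, hy]
      rw [div_mul_cancel₀ _ (hB' j), sub_self])
    rw [map_sub, map_mul, eval_rename, eval_rename, hcomp', eval_X, hpi] at h1
    exact sub_eq_zero.1 h1

theorem ent_num {A B : Fin n → ℂ → MvPolynomial (Option (Fin n)) ℂ} (hA : ∀ j, Ent (A j))
    (hB : ∀ j, Ent (B j)) (m : Fin n → ℤ) :
    Ent (fun s => num (fun j => A j s) (fun j => B j s) m) := by
  unfold num
  exact Ent.prod (Φ := fun j s => A j s ^ (m j).toNat * B j s ^ (-m j).toNat) _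
    fun j => ((hA j).pow _).mul ((hB j).pow _)

theorem dep_countable {U V : ℂ → MvPolynomial (Option (Fin n)) ℂ} (hU : Ent U) (hV : Ent V)
    {s0 : ℂ} (h : DepT P (U s0) (V s0)) : {s | ¬ DepT P (U s) (V s)}.Countable := by
  have h1 : Ent fun s => MvPolynomial.pderiv none (U s) * V s -
      U s * MvPolynomial.pderiv none (V s) :=
    ((hU.pderiv none).mul hV).sub (hU.mul (hV.pderiv none))
  refine (h1.countable (rename some P) h).mono ?_
  intro s hs
  unfold DepT at hs
  exact not_not.1 hs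

/-- families of systems: solvable for all but countably many parameters -/
theorem family (hn : 2 ≤ n) (hP : Irreducible P)
    (A B : Fin n → ℂ → MvPolynomial (Option (Fin n)) ℂ) (hA : ∀ j, Ent (A j))
    (hB : ∀ j, Ent (B j)) (s0 : ℂ) (hA0 : ∀ j, ¬ rename some P ∣ A j s0)
    (hB0 : ∀ j, ¬ rename some P ∣ B j s0) (hc : CasesT P (fun j => A j s0) (fun j => B j s0)) :
    {s | ¬ ∀ G : MvPolynomial (Option (Fin n)) ℂ, ¬ rename some P ∣ G →
      ∃ (x : Fin n → ℂ) (t : ℂ), eval x P = 0 ∧ eval (oe t x) G ≠ 0 ∧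
      ∀ j, eval (oe t x) (B j s) ≠ 0 ∧
        Complex.exp (x j) * eval (oe t x) (B j s) = eval (oe t x) (A j s)}.Countable := by
  have key : ∀ C1 C2 C3 : ℂ → Prop, {s | ¬ C1 s}.Countable → {s | ¬ C2 s}.Countable →
      {s | ¬ C3 s}.Countable → {s | ¬ (C1 s ∧ C2 s ∧ C3 s)}.Countable := by
    intro C1 C2 C3 h1 h2 h3
    refine ((h1.union h2).union h3).mono ?_
    intro s hs
    simp only [Set.mem_ofPred_eq, Set.mem_union] at hs ⊢
    tauto
  have hgood : {s | ¬ ((∀ j, ¬ rename some P ∣ A j s) ∧ (∀ j, ¬ rename some P ∣ B j s) ∧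
      CasesT P (fun j => A j s) (fun j => B j s))}.Countable := by
    apply key
    · have h1 : (⋃ j, {s | rename some P ∣ A j s}).Countable :=
        Set.countable_iUnion fun j => (hA j).countable _ (hA0 j)
      refine h1.mono fun s hs => ?_
      simp only [Set.mem_ofPred_eq, not_forall, not_not] at hs
      exact Set.mem_iUnion.2 hs
    · have h1 : (⋃ j, {s | rename some P ∣ B j s}).Countable :=
        Set.countable_iUnion fun j => (hB j).countable _ (hB0 j)
      refine h1.mono fun s hs => ?_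
      simp only [Set.mem_ofPred_eq, not_forall, not_not] at hs
      exact Set.mem_iUnion.2 hs
    · rcases hc with ⟨hn, hel, l, hl⟩ | ⟨hG', hmm⟩ | ⟨hm, hlim⟩
      · refine (dep_countable (hA l) (hB l) hl).mono fun s hs => ?_
        intro h
        exact hs (Or.inl ⟨hn, hel, l, h⟩)
      · have h1 : (⋃ mm : (Fin n → ℤ) × (Fin n → ℤ),
            {s | LinearIndependent ℤ ![mm.1, mm.2] ∧ ¬ (DepT P
              (num (fun j => A j s) (fun j => B j s) mm.1)
              (num (fun j => B j s) (fun j => A j s) mm.1) ∨ DepT P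
              (num (fun j => A j s) (fun j => B j s) mm.2)
              (num (fun j => B j s) (fun j => A j s) mm.2))}).Countable := by
          refine Set.countable_iUnion fun mm => ?_
          by_cases hi : LinearIndependent ℤ ![mm.1, mm.2]
          · rcases hmm mm.1 mm.2 hi with h | h
            · refine (dep_countable (ent_num hA hB mm.1) (ent_num hB hA mm.1) h).mono
                fun s hs => ?_
              exact fun h' => hs.2 (Or.inl h')
            · refine (dep_countable (ent_num hA hB mm.2) (ent_num hB hA mm.2) h).mono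
                fun s hs => ?_
              exact fun h' => hs.2 (Or.inr h')
          · refine (Set.countable_empty).mono fun s hs => hi hs.1
        refine h1.mono fun s hs => ?_
        by_contra hcon
        apply hs
        refine Or.inr (Or.inl ⟨hG', fun m m' hi => ?_⟩)
        by_contra h
        exact hcon (Set.mem_iUnion.2 ⟨(m, m'), hi, h⟩)
      · have h1 : (⋃ m : Fin n → ℤ, {s | m ≠ 0 ∧ ¬ DepT P
              (num (fun j => A j s) (fun j => B j s) m)
              (num (fun j => B j s) (fun j => A j s) m)}).Countable := by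
          refine Set.countable_iUnion fun m => ?_
          by_cases hi : m ≠ 0
          · refine (dep_countable (ent_num hA hB m) (ent_num hB hA m) (hm m hi)).mono
                fun s hs => hs.2
          · refine (Set.countable_empty).mono fun s hs => hi hs.1
        refine h1.mono fun s hs => ?_
        by_contra hcon
        apply hs
        refine Or.inr (Or.inr ⟨fun m hi => ?_, hlim⟩)
        by_contra h
        exact hcon (Set.mem_iUnion.2 ⟨m, hi, h⟩)
  refine hgood.mono ?_
  intro s hs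
  rw [Set.mem_ofPred_eq] at hs ⊢
  intro h
  apply hs
  intro G hG
  exact fixed hn hP _ _ h.1 h.2.1 h.2.2 G hG

end dep

end Pool.Agent.Q72.EG
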