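import Pool.Agent.Q72.EG.Def
import Pool.Agent.H581R2.SARun

/-!
Project EG (helper72): exponential points on varieties `V ⊆ ℂ^n × (ℂ^*)^n` of dimension `n` whose
projection to `ℂ^n` is a hypersurface.  Statements, with complete proofs in the docstrings.
-/

set_option autoImplicit false

namespace Pool.Agent.Q72.EG

open MvPolynomial Filter Topology Metric Pool.Agent.W996.EC

/-- JOB DOM. Domination.
Proof. Let `j0` be the least `j` with `¬ P ∣ cf H j`, `R = cf H j0`. At an admissible point (for `R' = R R''`)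
`cf H j` vanishes at `x` for `j < j0` as `P ∣ cf H j`; all `‖cf H j‖`, `‖R''‖` are at most `T^D1` at `x` (polynomials,
`‖x‖ ≤ T^D`), so `‖R(x)‖ ≥ T^(-D-D1)` and by `eval_oe_sum`
`H(x, Y) = Y^j0 (R(x) + ∑_{j > j0} cf H j(x) Y^(j - j0))`, where the sum is at most `d T^(D1-K)`. -/
def S_dom : Prop := ∀ (n : ℕ) (P : MvPolynomial (Fin n) ℂ) (H : MvPolynomial (Option (Fin n)) ℂ),
  Irreducible P → (∃ j, ¬ P ∣ cf H j) →
  ∃ R : MvPolynomial (Fin n) ℂ, ¬ P ∣ R ∧ ∀ R', R ∣ R' → ∀ D : ℝ, ∃ K : ℝ, 1 ≤ K ∧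
    ∀ T : ℝ, K ≤ T → ∀ x Y, Adm P R' D K T x Y → eval (oe Y x) H ≠ 0

/-- JOB SLOPE. The roots of `A(x, Y, Z)` over admissible points have sizes close to `|Y|^σ`, with `σ` in a
finite set.
Proof. Let `F = {(b, j) : ¬ P ∣ cf (A.coeff b) j}` (finite, not empty), `a_{bj} = cf (A.coeff b) j`,
`R = ∏_F a_{bj}` (`P` prime), `Σ = {-(j - j') / (b - b') : (b, j), (b', j') ∈ F, b ≠ b'}` (if there are no such
pairs, the conclusion says that there is no such `Z`). At an admissible point all `‖a_{bj}(x)‖`, `(b,j) ∈ F`, are between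
`T^(-D1)` and `T^D1` (the product is at least `T^(-D)` times a polynomial bound, each factor is at most
polynomial), the other `a_{bj}(x)` are `0`, so `∑_F a_{bj}(x) Y^j Z^b = 0`. Let `e` be the index of the largest
term; as the sum of the other terms is minus this term, there is another `e'` with `‖term e'‖ ≥ ‖term e‖ / #F`. So
the logarithms of the sizes of the two terms differ by at most `log #F`. If `b = b'` then `j ≠ j'` and
`|j - j'| |log ‖Y‖| ≤ 2 D1 log T + log #F`, impossible for `K` large as `|log ‖Y‖| ≥ K log T`. So `b ≠ b'` and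
`|(b - b') log ‖Z‖ + (j - j') log ‖Y‖| ≤ 2 D1 log T + log #F`. -/
def S_slope : Prop := ∀ (n : ℕ) (P : MvPolynomial (Fin n) ℂ)
  (A : Polynomial (MvPolynomial (Option (Fin n)) ℂ)),
  Irreducible P → (∃ b j, ¬ P ∣ cf (A.coeff b) j) →
  ∃ (R : MvPolynomial (Fin n) ℂ) (S : Finset ℝ), ¬ P ∣ R ∧ ∀ R', R ∣ R' → ∀ D : ℝ,
    ∃ D' K : ℝ, 1 ≤ K ∧ ∀ T : ℝ, K ≤ T → ∀ x Y, Adm P R' D K T x Y →
      ∀ Z : ℂ, Z ≠ 0 → (A.map (eval (oe Y x))).eval Z = 0 →
        ∃ σ ∈ S, |Real.log ‖Z‖ - σ * Real.log ‖Y‖| ≤ D' * Real.log T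

/-- JOB ANN. A polynomial with two coefficients of size at least `1/M` and all coefficients of size at most `M`
has a root in an annulus.
Proof. Let `m = natDegree q ≤ d`, `q = c ∏ (X - ζ_l)`. Suppose there is no root with `1/N < ‖ζ‖ < N`, `N = 2^(d+2) M^2`
(`M ≥ 1`). Let `S` be the small roots (`‖ζ_l‖ ≤ 1/N`), `L` the large ones (`‖ζ_l‖ ≥ N`), `s = #S`,
`c'' = c ∏_L (-ζ_l)`. Then `q = c'' ∏_S (X - ζ_l) ∏_L (1 - X/ζ_l)`; expanding the product, every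
monomial of degree `≠ s` contains at least one factor `ζ_l` (`l ∈ S`) or `1/ζ_l` (`l ∈ L`), so the coefficients of the
product in degrees `≠ s` are at most `2^m / N` and the one in degree `s` differs from `1` by at most `2^m / N ≤ 1/2`.
So `‖c''‖ ≤ 2 M` and `‖q_b‖ ≤ 2 M 2^m / N < 1/M` for all `b ≠ s`, but one of `b₁, b₂` is not `s`. -/
def S_ann : Prop := ∀ d : ℕ, ∃ N : ℕ, ∀ (q : Polynomial ℂ) (M : ℝ) (b₁ b₂ : ℕ), 1 ≤ M →
  q.natDegree ≤ d → (∀ b, ‖q.coeff b‖ ≤ M) → b₁ ≠ b₂ → M⁻¹ ≤ ‖q.coeff b₁‖ → M⁻¹ ≤ ‖q.coeff b₂‖ →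
  ∃ ζ : ℂ, q.eval ζ = 0 ∧ (M ^ N * 2 ^ N)⁻¹ ≤ ‖ζ‖ ∧ ‖ζ‖ ≤ M ^ N * 2 ^ N

/-- JOB NEWT. Existence of a root with a prescribed slope of the Newton polygon.
Proof (uses S_ann). `F`, `a_{bj}`, `R = ∏_F a_{bj}` as in S_slope; at admissible points
`T^(-D1) ≤ ‖a_{bj}(x)‖ ≤ T^D1` on `F` and `a_{bj}(x) = 0` off `F`. Let `μ = j₁ + r b₁ = j₂ + r b₂`, the minimum of `j + r b` over
`F`, `ρ = ‖Y‖^r > 0`, `q(ζ) = ‖Y‖^(-μ) A(x, Y, ρ ζ)`. Its coefficient in degree `b` is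
`‖Y‖^(-μ) ρ^b ∑_{j : (b,j) ∈ F} a_{bj}(x) Y^j`, at most `d' T^D1` as `j + r b ≥ μ` and `‖Y‖ ≤ 1`; for
`b = b₁, b₂` the minimal `j` with `(b, j) ∈ F` is `j₁`, `j₂`, and the coefficient is at least
`T^(-D1) - d' T^D1 ‖Y‖ ≥ T^(-D1)/2` for `K` large. S_ann with `M = T^(D1 + 1)` (`T` large) gives a root `ζ` with
`|log ‖ζ‖| ≤ D' log T`, `Z = ρ ζ`. -/
def S_newt : Prop := ∀ (n : ℕ) (P : MvPolynomial (Fin n) ℂ)
  (A : Polynomial (MvPolynomial (Option (Fin n)) ℂ)) (r : ℝ) (b₁ j₁ b₂ j₂ : ℕ),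
  Irreducible P → b₁ ≠ b₂ → ¬ P ∣ cf (A.coeff b₁) j₁ → ¬ P ∣ cf (A.coeff b₂) j₂ →
  (∀ b j, ¬ P ∣ cf (A.coeff b) j → (j₁ : ℝ) + r * b₁ ≤ j + r * b ∧ (j₂ : ℝ) + r * b₂ ≤ j + r * b) →
  ∃ R : MvPolynomial (Fin n) ℂ, ¬ P ∣ R ∧ ∀ R', R ∣ R' → ∀ D : ℝ,
    ∃ D' K : ℝ, 1 ≤ K ∧ ∀ T : ℝ, K ≤ T → ∀ x Y, Adm P R' D K T x Y →
      ∃ Z : ℂ, Z ≠ 0 ∧ (A.map (eval (oe Y x))).eval Z = 0 ∧
        |Real.log ‖Z‖ - r * Real.log ‖Y‖| ≤ D' * Real.log T

/-- JOB VAL. In a valuation the minimum over the terms of a vanishing sum is attained twice.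
Proof. Let `μ` be the minimum of `N e.1 + p e.2` over `F` (integers), attained at `e₁`. The `N`-th power of the valuation of the term of
`e` is `v(Y)^(N e.1 + p e.2)`. If it was attained only at `e₁`, the term of `e₁` would have a strictly larger
valuation than all others (`v(Y) < 1`), and the sum would not be zero. So it is attained at some `e₂ ≠ e₁`, and if
`e₁.2 = e₂.2` then also `e₁.1 = e₂.1`. -/
def S_val : Prop := ∀ (E : Type) [Field E] (O : ValuationSubring E) (F : Finset (ℕ × ℕ))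
  (c : ℕ × ℕ → E) (Y Z : E) (N : ℕ) (p : ℤ), F.Nonempty → (∀ e ∈ F, O.valuation (c e) = 1) →
  Y ≠ 0 → Z ≠ 0 → O.valuation Y < 1 → 0 < N → O.valuation Z ^ N = O.valuation Y ^ p →
  ∑ e ∈ F, c e * Y ^ e.1 * Z ^ e.2 = 0 →
  ∃ e₁ ∈ F, ∃ e₂ ∈ F, e₁.2 ≠ e₂.2 ∧ ∀ e ∈ F,
    (e₁.1 : ℝ) + (p : ℝ) / N * e₁.2 ≤ e.1 + (p : ℝ) / N * e.2 ∧
    (e₂.1 : ℝ) + (p : ℝ) / N * e₂.2 ≤ e.1 + (p : ℝ) / N * e.2

/-- JOB LIFT0. Lifting of points, with prescribed value of one of the functions.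
Proof. Let `R ⊆ E` be the ring generated by `ζ` (the range of `aeval ζ`), `K'` its field of fractions in `E`
(= adjoin). Take the minimal polynomial of `f k0` over `K'`, cleared of denominators: `A₀ ∈ R[X]` with leading coefficient
`h0 ≠ 0`; `A` a lift of it to `MvPolynomial τ ℂ` with the same degree. Choose `h ∈ R`, a nonzero multiple of `h0`, such that all `f k`
are integral over `R[1/h]`, `H` a lift of `h`. A point `t ∈ Pt ζ` is a homomorphism `R → ℂ`, and if `eval t H ≠ 0` it extends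
to `R[1/h] → ℂ`. If `g ∈ R[1/h][X]` vanishes at `f k0`, divide by the monic `A₀ / h0`: the remainder vanishes at
`f k0` and has smaller degree than the minimal polynomial, so it is `0`. So there is a homomorphism
`R[1/h][f k0] → ℂ` with `f k0 ↦ z` for every root `z` of `A.map (eval t)`. The ring `R[1/h][f k : k]` is integral over
`R[1/h][f k0]`, lying over and `ℂ` algebraically closed extend it to this ring. -/
def S_lift0 : Prop := ∀ (E : Type) [Field E] [Algebra ℂ E] (τ κ : Type) [Finite τ] [Finite κ]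
  (ζ : τ → E) (f : κ → E) (k0 : κ),
  (∀ k, IsAlgebraic (IntermediateField.adjoin ℂ (Set.range ζ)) (f k)) →
  ∃ (A : Polynomial (MvPolynomial τ ℂ)) (H : MvPolynomial τ ℂ), aeval ζ H ≠ 0 ∧
    (∃ b, aeval ζ (A.coeff b) ≠ 0) ∧
    (A.map (aeval ζ : MvPolynomial τ ℂ →ₐ[ℂ] E).toRingHom).eval (f k0) = 0 ∧
    ∀ t ∈ Pt ζ, eval t H ≠ 0 → ∀ z : ℂ, (A.map (eval t)).eval z = 0 →
      ∃ p ∈ Pt (Sum.elim ζ f), (∀ i, p (Sum.inl i) = t i) ∧ p (Sum.inr k0) = z

/-- JOB ALG. Primitive element, with all denominators in one polynomial `H`.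
Proof. `R`, `K'` as in S_lift0. `K'(f)` is a finite extension of `K'` (characteristic 0), so `K'(f) = K'(θ)`, with
minimal polynomial of degree `N ≥ 1`; `f k = ∑_{i<N} c_{ki} θ^i`, `θ = g0(f)`, `g0 ∈ K'[κ]`. Choose `h ∈ R`, `h ≠ 0`,
such that everything becomes integral: `Θ` = a lift of `h * minpoly`, `G k` a lift of `h ∑ c_{ki} X^i`,
`h θ = g1(ζ, f)` with `g1 ∈ MvPolynomial (τ ⊕ κ) ℂ`, and `h` is a multiple of `δ ≠ 0`, `a Θ + b Θ' = δ` in
`R[X]` (separable), and the leading coefficient of `Θ` divides `h` (up to lifts). Third assertion: for `t ∈ Pt ζ` with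
`eval t H ≠ 0` the leading coefficient is not zero, and there is no double root because of `δ`. Fourth assertion
(down): `z = g1(p) / h(t)`; `Θ(θ) = 0` and `h f k = G k(θ)` multiplied with powers of `h` are polynomial relations between
`ζ, f` (substitute `θ = g1/h`), so they hold at `p`. Fifth assertion (up): let `g(ζ, f) = 0`; `g^ = H^D g(ζ, G/H)` is a
polynomial in `θ` with coefficients in `MvPolynomial τ ℂ` which vanishes at `θ`; pseudodivision by `Θ`: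
`lead^s g^ = Q Θ + r`, `deg r < N`, so all coefficients of `r` vanish at `ζ`, hence at `t`, and so `g^(t)(z) = 0`. -/
def S_alg : Prop := ∀ (E : Type) [Field E] [Algebra ℂ E] (τ κ : Type) [Finite τ] [Finite κ]
  (ζ : τ → E) (f : κ → E),
  (∀ k, IsAlgebraic (IntermediateField.adjoin ℂ (Set.range ζ)) (f k)) →
  ∃ (Θ : Polynomial (MvPolynomial τ ℂ)) (H : MvPolynomial τ ℂ)
    (G : κ → Polynomial (MvPolynomial τ ℂ)), aeval ζ H ≠ 0 ∧
    (∀ t ∈ Pt ζ, eval t H ≠ 0 → eval t Θ.leadingCoeff ≠ 0 ∧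
      ∀ z : ℂ, (Θ.map (eval t)).eval z = 0 → (Polynomial.derivative (Θ.map (eval t))).eval z ≠ 0) ∧
    (∀ (t : τ → ℂ) (q : κ → ℂ), Sum.elim t q ∈ Pt (Sum.elim ζ f) → eval t H ≠ 0 →
      ∃ z : ℂ, (Θ.map (eval t)).eval z = 0 ∧ ∀ k, eval t H * q k = ((G k).map (eval t)).eval z) ∧
    (∀ t ∈ Pt ζ, eval t H ≠ 0 → ∀ z : ℂ, (Θ.map (eval t)).eval z = 0 →
      Sum.elim t (fun k => ((G k).map (eval t)).eval z / eval t H) ∈ Pt (Sum.elim ζ f))

/-- JOB SEP. An integral vector separating a point from finitely many others.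
Proof. Avoid the finitely many hyperplanes orthogonal to `σ - a`, `σ ∈ S`, `σ ≠ a` (for instance
`m l = t^l` with a natural number `t` which is not a root of finitely many nonzero polynomials). -/
def S_sep : Prop := ∀ (n : ℕ) (S : Set (Fin n → ℝ)) (a : Fin n → ℝ), S.Finite →
  ∃ m : Fin n → ℤ, ∀ σ ∈ S, ∑ l, (m l : ℝ) * σ l = ∑ l, (m l : ℝ) * a l → σ = a

/-- JOB LIFT. Over every admissible point there is a point of the variety on the given end.
Proof (uses S_dom, S_slope, S_newt, S_val, S_lift0, S_sep; `v = O.valuation`). Let `Y = y_{i0}^ε`, `ζ = oe Y x`. `Y` is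
transcendental over the field generated by `x`: in fact if `A(x, Y) = 0`, `A ∈ MvPolynomial (Option (Fin n)) ℂ`, then
`P ∣ cf A j` for all `j` (otherwise the first `j` with `¬ P ∣ cf A j` gives the dominating term, `v(cf A j(x)) = 1`). So
`(Y°, x°) ∈ Pt ζ` iff `P(x°) = 0`, and `aeval ζ H ≠ 0` implies `∃ j, ¬ P ∣ cf H j`.
Take `κ = Fin n ⊕ Fin n ⊕ Fin 2` with the functions `y_l`, `y_l⁻¹`, `f_0 = ∏ y_l^{m_l}`, `1/H(x, y)`, all algebraic over
`ℂ(x, Y)`. (a) For every `l` S_lift0 (or algebraicity) gives `A_l ≠ 0` with `A_l(x, Y, y_l) = 0`, S_slope a finite set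
`Σ_l`. (b) Choose `m` by S_sep for `∏ Σ_l` and `a`. (c) S_lift0 for `f_0` gives `A_0, H_0`. In
`A_0(x, Y, f_0) = ∑ a_{bj}(x) Y^j f_0^b = 0` (sum over `F = {¬ P ∣ a_{bj}}`) the valuations of the coefficients are
`1`, `v(f_0)^N = v(Y)^(∑ m_l b_l)`, so S_val gives two exponents which are minimal for the slope `r = ∑ m_l a_l`, and
S_newt a root `Z` with `|log ‖Z‖ - r log ‖Y°‖| ≤ D1 log T`. (d) S_lift0 (`H_0(x°, Y°) ≠ 0` by S_dom) gives a point `p` of
`Pt (ζ, f)` with `f_0(p) = Z`. Put `y°_l = p(y_l)`. The relations `y_l y_l⁻¹ = 1`, `y_{i0}^ε = Y`,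
`H * (1/H) = 1` hold at `p`. (e) By S_slope `|log ‖y°_l‖ - σ_l log ‖Y°‖| ≤ D2 log T` with `σ_l ∈ Σ_l`; as
`∏ y°_l^{m_l} = Z` (relation), `|∑ m_l (σ_l - a_l)| |log ‖Y°‖| ≤ D3 log T`, and `|log ‖Y°‖| ≥ K log T`; for `K` large this
gives `∑ m_l σ_l = ∑ m_l a_l`, so `σ = a`. `R` is the product of the finitely many `R`s used. -/
def S_lift : Prop := ∀ (n : ℕ) (E : Type) [Field E] [Algebra ℂ E] (G : Gen n E)
  (H : MvPolynomial (Fin n ⊕ Fin n) ℂ), aeval (Sum.elim G.x G.y) H ≠ 0 →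
  ∃ R : MvPolynomial (Fin n) ℂ, ¬ G.P ∣ R ∧ ∀ R', R ∣ R' → ∀ D : ℝ,
    ∃ D' K : ℝ, 1 ≤ K ∧ ∀ T : ℝ, K ≤ T → ∀ x Y, Adm G.P R' D K T x Y →
      ∃ y : Fin n → ℂ, Sum.elim x y ∈ Pt (Sum.elim G.x G.y) ∧ (∀ l, y l ≠ 0) ∧
        y G.i0 ^ G.ε = Y ∧ eval (Sum.elim x y) H ≠ 0 ∧
        ∀ l, |Real.log ‖y l‖ - G.a l * Real.log ‖Y‖| ≤ D' * Real.log T

/-- JOB CONT. Analytic continuation of the point over a ball of admissible points.
Proof (uses S_dom, S_alg and `Pool.Agent.H713R3.ZA.ROOT.main`, import Pool.Agent.H713R3.ZA.TROOT). `ζ = oe Y x`,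
`Y = y_{i0}^ε`; as in S_lift, `(Y°, x°) ∈ Pt ζ` iff `P(x°) = 0`. Apply S_alg to `ζ` and the functions `y_l`, `y_l⁻¹`,
`1/H(x, y)`; by S_dom the polynomial `H_1` of S_alg does not vanish at the points `(Y u, X u)`. The point
`(Y c, X c, y0, y0⁻¹, 1/H(X c, y0))` is in `Pt (ζ, f)`: a relation `g(ζ, y, y⁻¹, 1/H) = 0` times powers of the
`y_l` and of `H` is a polynomial relation between `x, y` (replace `Y` by `y_{i0}^{±1}` also). So S_alg gives a root `z0` of `Θ` over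
`(Y c, X c)`. ROOT.main with `U = ball c ρ` and `F u z = (Θ.map (eval (oe (Y u) (X u)))).eval z` (polynomial in `z`,
coefficients holomorphic in `u`, leading coefficient without zeros, so the properness condition holds, all roots
simple) gives a holomorphic `z(u)`, `z(c) = z0`. Put `y_l(u) = G_l(z(u)) / H_1`; by S_alg the point
`(Y u, X u, y(u), ...)` is in `Pt (ζ, f)`, and the relations `y_l y_l⁻¹ = 1`, `y_{i0}^ε = Y`, `H * (1/H) = 1` hold. -/
def S_cont : Prop := ∀ (n : ℕ) (E : Type) [Field E] [Algebra ℂ E] (G : Gen n E)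
  (H : MvPolynomial (Fin n ⊕ Fin n) ℂ), aeval (Sum.elim G.x G.y) H ≠ 0 →
  ∃ R : MvPolynomial (Fin n) ℂ, ¬ G.P ∣ R ∧ ∀ R', R ∣ R' → ∀ D : ℝ,
    ∃ K : ℝ, 1 ≤ K ∧ ∀ T : ℝ, K ≤ T → ∀ (c : Fin n → ℂ) (ρ : ℝ)
      (X : (Fin n → ℂ) → Fin n → ℂ) (Y : (Fin n → ℂ) → ℂ), 0 < ρ →
      DifferentiableOn ℂ X (ball c ρ) → DifferentiableOn ℂ Y (ball c ρ) →
      (∀ u ∈ ball c ρ, Adm G.P R' D K T (X u) (Y u)) →
      ∀ y0 : Fin n → ℂ, Sum.elim (X c) y0 ∈ Pt (Sum.elim G.x G.y) → (∀ l, y0 l ≠ 0) →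
      y0 G.i0 ^ G.ε = Y c → eval (Sum.elim (X c) y0) H ≠ 0 →
      ∃ y : (Fin n → ℂ) → Fin n → ℂ, DifferentiableOn ℂ y (ball c ρ) ∧ y c = y0 ∧
        ∀ u ∈ ball c ρ, Sum.elim (X u) (y u) ∈ Pt (Sum.elim G.x G.y) ∧ (∀ l, y u l ≠ 0) ∧
          y u G.i0 ^ G.ε = Y u ∧ eval (Sum.elim (X u) (y u)) H ≠ 0

/-- JOB SLC. The slopes are constant along continuous families.
Proof (uses S_slope). For every `l` there is `A_l`, not zero at `ζ = oe Y x` (so `∃ b j, ¬ P ∣ cf (A_l.coeff b) j`), with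
`A_l(x, Y, y_l) = 0` (algebraicity; clear denominators). S_slope gives `R_l`, `S_l`; `R = ∏ R_l`. The points
`(Y u, X u, y u)` satisfy all relations between `Y = y_{i0}^ε, x, y` (multiply with a power of `y_{i0}`), so
`y u l` is a root of `A_l.map (eval (oe (Y u) (X u)))` and `∃ σ ∈ S_l, |log ‖y u l‖ - σ log ‖Y u‖| ≤ D1 log T`. Let
`δ > 0` be smaller than all distances between different elements of `S_l ∪ {a_l}`; `|log ‖Y u‖| ≥ K log T`. If
`δ K > 2 D1 + |D₀| + 1` the `σ` is unique; the sets where it is a given element of `S_l` are relatively closed, so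
it is constant on the ball (connected), and at `c` it is `a_l`. -/
def S_slc : Prop := ∀ (n : ℕ) (E : Type) [Field E] [Algebra ℂ E] (G : Gen n E),
  ∃ R : MvPolynomial (Fin n) ℂ, ¬ G.P ∣ R ∧ ∀ R', R ∣ R' → ∀ D D₀ : ℝ,
    ∃ D' K : ℝ, 1 ≤ K ∧ ∀ T : ℝ, K ≤ T → ∀ (c : Fin n → ℂ) (ρ : ℝ)
      (X : (Fin n → ℂ) → Fin n → ℂ) (Y : (Fin n → ℂ) → ℂ) (y : (Fin n → ℂ) → Fin n → ℂ), 0 < ρ →
      ContinuousOn Y (ball c ρ) → ContinuousOn y (ball c ρ) →
      (∀ u ∈ ball c ρ, Adm G.P R' D K T (X u) (Y u)) →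
      (∀ u ∈ ball c ρ, Sum.elim (X u) (y u) ∈ Pt (Sum.elim G.x G.y) ∧ (∀ l, y u l ≠ 0) ∧
        y u G.i0 ^ G.ε = Y u) →
      (∀ l, |Real.log ‖y c l‖ - G.a l * Real.log ‖Y c‖| ≤ D₀ * Real.log T) →
      ∀ u ∈ ball c ρ, ∀ l, |Real.log ‖y u l‖ - G.a l * Real.log ‖Y u‖| ≤ D' * Real.log T

/-- JOB LOG. Holomorphic logarithm on a ball of `ℂ^n`.
Proof. `h(u) = h0 + ∫_0^1 (Df(c + t(u - c))(u - c)) / f(c + t (u - c)) dt`; or use an existing lemma of the pool or the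
covering `exp` and lifting on the convex set as in `Pool.Agent.H713R3.ZA.TROOT`; `h0 = Complex.log (f c)`. -/
def S_log : Prop := ∀ (n : ℕ) (c : Fin n → ℂ) (ρ : ℝ) (f : (Fin n → ℂ) → ℂ), 0 < ρ →
  DifferentiableOn ℂ f (ball c ρ) → (∀ u ∈ ball c ρ, f u ≠ 0) →
  ∃ h : (Fin n → ℂ) → ℂ, DifferentiableOn ℂ h (ball c ρ) ∧
    (∀ u ∈ ball c ρ, Complex.exp (h u) = f u) ∧ |(h c).im| ≤ Real.pi

/-- JOB BC. Borel–Carathéodory on a ball of `ℂ^n`.
Proof. For `u` in the half ball, apply the one variable theorem to `t ↦ h (c + t (u - c))` on the disc of radius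
`R = ρ / ‖u - c‖ > 2` (or any radius in between), `|g(1)| ≤ 2 r / (R - r) B + (R + r) / (R - r) |g(0)|` with
`r = 1 < R / 2`: at most `2 B + 3 (B + π)`. -/
def S_bc : Prop := ∀ (n : ℕ) (c : Fin n → ℂ) (ρ B : ℝ) (h : (Fin n → ℂ) → ℂ), 0 < ρ → 0 ≤ B →
  DifferentiableOn ℂ h (ball c ρ) → (∀ u ∈ ball c ρ, |(h u).re| ≤ B) → |(h c).im| ≤ Real.pi →
  ∀ u ∈ ball c (ρ / 2), ‖h u‖ ≤ 6 * B + 10

/-- JOB FIX. A fixed point.
Proof. On the closed ball of radius `ρ/4` the map `h` is a contraction: for `u, u'` there, `t ↦ h (u + t (u' - u))` is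
holomorphic and bounded by `B` on the disc of radius `3ρ/(4 ‖u' - u‖) > 1`, so
`‖h u' - h u‖ ≤ 2 B * 4 ‖u' - u‖ / (3 ρ) ≤ ‖u' - u‖ / 3` (Schwarz lemma / Cauchy estimate, for each coordinate or
for the vector valued map); `c + h` maps this ball to itself. -/
def S_fix : Prop := ∀ (n : ℕ) (c : Fin n → ℂ) (ρ B : ℝ) (h : (Fin n → ℂ) → Fin n → ℂ), 0 < ρ →
  DifferentiableOn ℂ h (ball c ρ) → (∀ u ∈ ball c ρ, ‖h u‖ ≤ B) → 8 * B < ρ →
  ∃ u ∈ ball c ρ, u = c + h u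

/-- JOB SOLVE. The core theorem.
Proof (uses S_lift, S_cont, S_slc, S_log, S_bc, S_fix). Let `R` be the product of the three `R`s (`P` is prime),
`D` the exponent of HasRegion for `R`, `D1, K1` from S_lift, `K2` from S_cont, `D3, K3` from S_slc for `D₀ = D1`
(all for `R' = R` and this `D`). Take `K ≥ K1, K2, K3`, `K ≥ 1`, so large that
`48 D3' + ... ` below holds, and the region for `K`: `T, M, w`, ball `B` of centre `c = 2πi M` and radius `ρ = K log T`. Put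
`X u = u + w(u) a`, `Y u = exp(w u)`, so `‖Y u‖ = e^{Re w} ≤ T^{-K}`: all points are admissible. S_lift at `u = c`
gives `y0`, S_cont the family `y u`, S_slc: `|log ‖y u l‖ - a_l Re w(u)| ≤ D3 log T`. By S_log there is
`h_l` with `exp(h_l u) = y u l * exp(- a_l w(u))`, `|Im h_l(c)| ≤ π`, `|Re h_l| ≤ |D3| log T`. By S_bc
`‖h u‖ ≤ 6 |D3| log T + 10` on the half ball, where for `T ≥ 2` this is `< K log T / 16` if `K` is large. By
S_fix (radius `ρ/2`) there is `u = c + h u`. Then `z = X u = u + w(u) a` satisfies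
`exp(z_l) = exp(2πi M_l) exp(h_l u + a_l w(u)) = y u l`. -/
def S_solve : Prop := ∀ (n : ℕ) (E : Type) [Field E] [Algebra ℂ E] (G : Gen n E)
  (H : MvPolynomial (Fin n ⊕ Fin n) ℂ), aeval (Sum.elim G.x G.y) H ≠ 0 → HasRegion G.P G.a →
  ∃ z : Fin n → ℂ, Sum.elim z (fun l => Complex.exp (z l)) ∈ Pt (Sum.elim G.x G.y) ∧
    eval (Sum.elim z (fun l => Complex.exp (z l))) H ≠ 0

/-- JOB ELIM. Elimination in the direction `a`.
Proof. In `ℂ[u, w]` the polynomials `P^ = P(u + w a)` and `R^ = R(u + w a)` have no common factor (the substitution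
`(u, w) ↦ (u + w a, w)` is an automorphism of `ℂ[u, w]`, `P^` is irreducible and does not divide `R^`). `P^` has
positive degree in `w`, so by Gauss' lemma `P^`, `R^` are coprime in `ℂ(u)[w]`; clear denominators in
`α P^ + β R^ = 1`. -/
def S_elim : Prop := ∀ (n : ℕ) (P R : MvPolynomial (Fin n) ℂ) (a : Fin n → ℝ), Irreducible P →
  (∃ (x : Fin n → ℂ) (t : ℂ), eval (fun l => x l + t * (a l : ℂ)) P ≠ eval x P) → ¬ P ∣ R →
  ∃ (ρ : MvPolynomial (Fin n) ℂ) (α β : MvPolynomial (Option (Fin n)) ℂ), ρ ≠ 0 ∧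
    ∀ (u : Fin n → ℂ) (w : ℂ), eval u ρ = eval (oe w u) α * eval (fun l => u l + w * (a l : ℂ)) P +
      eval (oe w u) β * eval (fun l => u l + w * (a l : ℂ)) R

/-- JOB NORM. Normalized limits of a fixed polynomial: the normalizing constants are polynomially bounded.
Proof. `p_j = tr (lam j) (k j) ρ` is not zero and has degree at most `d = deg ρ`. Let `c_j` be the inverse of its largest
coefficient (in absolute value, or norm): by compactness (`S_cpt`, see Pool.Agent.W996.EC, proved there) a subsequence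
converges to `ρ' ≠ 0`. `ρ = tr (lam j)⁻¹ (-(lam j)⁻¹ k j) p_j` (`tr_inv`), and the coefficients of
`tr λ⁻¹ (-λ⁻¹ k) p` are at most `const(n, d) (2 + ‖k‖)^d` times the largest coefficient of `p` (`λ ≥ 1`), so the largest coefficient
of `p_j` is at least `const (2 + ‖k_j‖)^(-d)`. If you use the constants of S_cpt instead: `‖c_j‖` times the largest
coefficient of `p_j` is bounded as it converges. -/
def S_norm : Prop := ∀ (n : ℕ) (ρ : MvPolynomial (Fin n) ℂ) (lam : ℕ → ℝ) (k : ℕ → Fin n → ℝ),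
  ρ ≠ 0 → (∀ j, 1 ≤ lam j) →
  ∃ (φ : ℕ → ℕ) (c : ℕ → ℂ) (ρ' : MvPolynomial (Fin n) ℂ) (D : ℝ), StrictMono φ ∧ ρ' ≠ 0 ∧
    Conv (fun j => C (c j) * tr (lam (φ j)) (k (φ j)) ρ) ρ' ∧
    ∀ j, ‖c j‖ ≤ (2 + lam (φ j) + ‖k (φ j)‖) ^ D

/-- JOB REGION. Regions from tame limits.
Proof (uses S_elim, S_norm, `Pool.Agent.H713R3.ZA.ROOT.main`). Not `Star {a} q`: there are `κ ∈ ℝ^n` and `ω0`, `Re ω0 < 0`,
`q(a ω0 + iκ) = 0`, `q(a ω1 + iκ) ≠ 0`. `P` is not invariant in the direction `a` (otherwise `q`, a limit, would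
be). So with `R1 = ∑ a_l ∂_l P` (`¬ P ∣ R1`: it is not zero as `P` is not invariant, and has smaller degree) S_elim gives `ρ0` for `R` and `ρ1` for
`R1`; let `ρ2(u)` be the leading coefficient of `P(u + w a)` as a polynomial in `w`, a nonzero polynomial in `u` (you may obtain
it from the elimination setting), and `ρ = ρ0 ρ1 ρ2`. If `ρ(u) ≠ 0` then `w ↦ P(u + w a)` has exact degree `d_w ≥ 1` and only simple
roots. Let `lam, k, c` be the sequences of LimT, `T_j = 2 + lam j + ‖k j‖`; apply S_norm to `ρ` and pass to the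
subsequence: `c'_j ρ(lam x + i k) → ρ'(x) ≠ 0`, `‖c'_j‖ ≤ T_j^D1`. Perturb `κ`: there is `κ'` near `κ` with
`ρ'(iκ') ≠ 0`, and `q(a ω' + iκ') = 0` for some `ω'` near `ω0` with `Re ω' < 0`, `q(a ω1 + iκ') ≠ 0` (Hurwitz for polynomials in one
variable; a nonzero polynomial does not vanish on an open subset of `i ℝ^n`). Choose `0 < r < -Re ω'` with `q(a ω + iκ') ≠ 0` for
`‖ω - ω'‖ = r`, then `η > 0` and `m > 0` with `‖q(a ω + z)‖ ≥ m` for `‖ω - ω'‖ = r`, `‖z - iκ'‖ ≤ η` and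
`‖ρ'(z)‖ ≥ m` for `‖z - iκ'‖ ≤ η`. By uniform convergence on compact sets, for `j` large, `u = lam z + i k`,
`w = lam ω`: `c_j P(u + w a) ≠ 0` for `‖ω - ω'‖ = r`, `‖z - iκ'‖ ≤ η`, and `‖ρ(u)‖ ≥ T_j^(-D2)`. Let
`M l` = nearest integer to `(lam κ'_l + k_l)/(2π)`, so `z_M = (2πi M - i k)/lam` is within `4/lam` of `iκ'`; the ball of centre `2πi M` and
radius `K log T_j ≤ η lam / 2` consists of such `u` (tameness). By Hurwitz `ω ↦ P(2πi M + lam ω a)` has a zero with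
`‖ω - ω'‖ < r`. ROOT.main on the ball with `F u w = P(u + w a)` gives a holomorphic `w(u)`, and `‖w(u)/lam - ω'‖ < r`
on the ball, because it is never `= r` (connectedness). So `Re w ≤ lam (Re ω' + r) ≤ - K log T_j`,
`‖u + w a‖ ≤ T_j^D3`. `‖R(u + w a)‖ ≥ ‖ρ0(u)‖ / ‖β(w, u)‖ ≥ T_j^(-D4)`, and `‖ρ0(u)‖ = ‖ρ(u)‖/‖ρ1(u)ρ2(u)‖`. -/
def S_region : Prop := ∀ (n : ℕ) (P q : MvPolynomial (Fin n) ℂ) (a : Fin n → ℝ), Irreducible P →
  LimT P q → ¬ Star {a} q → HasRegion P a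

/-- JOB GROW. A semialgebraic condition which can be fulfilled for arbitrarily large `λ` can be fulfilled, for all large `λ`,
with `|k| ≤ λ^D`.
Proof (uses the Tarski–Seidenberg theorem `Pool.Agent.H581R2.SAP.exists_block`, import Pool.Agent.H581R2.SARun).
Variables `s ∈ ℝ^N` (parameters, fixed), `λ`, `k ∈ ℝ^n`. The predicates `S(s, λ, r) = ∃ k, (∀ l, |k_l| ≤ r) ∧ p(s, λ, k)`
and `∃ r, S(s, λ, r)` are semialgebraic: membership depends on the signs of finitely many polynomials. For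
fixed `s`, finitely many polynomials in `λ` have constant sign for `λ > Λ0`, so `∃ r, S(s, λ, r)` holds for all
`λ > Λ0`. The polynomials in `(λ, r)` (for fixed `s`), those which are not zero, have as polynomials in `r` a
leading coefficient which is a nonzero polynomial in `λ`, so there are `D, Λ1` such that for `λ > Λ1` they have no root `r > λ^D`:
their signs are constant on `r > λ^D`. `S(s, λ, r)` is monotone in `r` and true for some `r`, so it is true for `r = λ^D + 1`. -/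
def S_grow : Prop := ∀ (N n : ℕ) (p : (Fin N ⊕ (Fin 1 ⊕ Fin n) → ℝ) → Prop),
  Pool.Agent.H581R2.SAP p → ∀ s : Fin N → ℝ,
  (∀ L : ℝ, ∃ t : ℝ, L ≤ t ∧ ∃ k : Fin n → ℝ, p (Sum.elim s (Sum.elim (fun _ => t) k))) →
  ∃ D L : ℝ, ∀ t : ℝ, L ≤ t → ∃ k : Fin n → ℝ, ‖k‖ ≤ t ^ D ∧
    p (Sum.elim s (Sum.elim (fun _ => t) k))

end Pool.Agent.Q72.EG
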