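import Pool.Agent.Q72.EG.Stm

/-!
Project EG (helper72): further statements, with complete proofs in the docstrings.
-/

set_option autoImplicit false

namespace Pool.Agent.Q72.EG

open MvPolynomial Filter Topology Metric Pool.Agent.W996.EC

/-- JOB TAME. Every limit for dilations `λ_j → ∞` is a tame limit.
Proof (uses S_grow). Fix `ε = 1/(m+1)`. The condition on `(λ, k)`: `λ > 0` and there is `c ∈ ℂ` such that
`‖coeff μ (c tr λ k P) - coeff μ q‖ < ε` for all exponents `μ` of degree `≤ d` (`d` a bound for the degrees of `P`, `q`;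
finitely many), is semialgebraic with the real and imaginary parts of the coefficients of `P`, `q` and `ε` as
parameters `s`: the real and imaginary parts of `coeff μ (tr λ k P)` are polynomials with integral
coefficients in `λ`, `k` and the real and imaginary parts of the coefficients of `P` (expand), and the quantifier over
`c = c₁ + i c₂` is eliminated by `SAP.exists_block`. (Alternatively compare values at points instead of
coefficients, see S_pt, proved in Pool.Agent.W578.ECPt.) By LimInf it can be fulfilled for arbitrarily large `λ`, so by S_grow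
there are `D_m, L_m` such that for every `t ≥ L_m` it holds with some `‖k‖ ≤ t^(D_m)`. Choose `t_m ≥ L_m, m`
with `t_m / log(2 + t_m + t_m^(D_m)) ≥ m`, and `k_m`, `c_m`. -/
def S_tame : Prop := ∀ (n : ℕ) (P q : MvPolynomial (Fin n) ℂ), P ≠ 0 → LimInf P q → LimT P q

/-- JOB ENDS. Existence of ends on which a given monomial has a pole.
Proof. `K0 = adjoin ℂ (range x)`, `f = ∏ y_l^{m_l}`, transcendental over `K0`. The local ring `K0[f⁻¹]` at the ideal
`(f⁻¹)` is dominated by a valuation ring `O` of `E` (`LocalSubring.exists_le_valuationSubring`): `K0 ⊆ O`,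
so `v = 1` on `K0 \ {0}`, in particular on `aeval x g`, `¬ P ∣ g`, and `v(f) > 1`. Every `y_l` is algebraic over `K0(f)` by Tr1, so
`∑ c_{ab} f^a y_l^b = 0` with `c_{ab} ∈ K0` not all zero, and two terms have the same valuation:
`v(f)^(a - a') = v(y_l)^(b' - b)`; `b ≠ b'` as otherwise `v(f)^(a-a') = 1`. So `v(y_l)^N = v(f)^(q_l)` with a common
`N > 0`. As `v(f) = ∏ v(y_l)^{m_l} ≠ 1` there is `i0` with `v(y_{i0}) ≠ 1`, choose `ε` with `v(Y) < 1`,
`Y = y_{i0}^ε`; then some positive power of `v(f)` is a power of `v(Y)`, and after enlarging `N`,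
`v(y_l)^N = v(Y)^{b_l}`. `y_{i0}` is transcendental over `K0` (its valuation is not `1`; elements algebraic over `K0` have
valuation `1`), so by Tr1 all `y_l` are algebraic over `adjoin ℂ (insert y_{i0} (range x))` = `adjoin ℂ (range (oe Y x))`.
Finally `v(f)^N = v(Y)^(∑ m_l b_l)` and `v(f) > 1 > v(Y)` give `∑ m_l b_l < 0`. -/
def S_ends : Prop := ∀ (n : ℕ) (E : Type) [Field E] [Algebra ℂ E] (P : MvPolynomial (Fin n) ℂ)
  (x y : Fin n → E), Irreducible P → (∀ g : MvPolynomial (Fin n) ℂ, aeval x g = 0 ↔ P ∣ g) →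
  (∀ l, y l ≠ 0) → Tr1 x → ∀ m : Fin n → ℤ,
  Transcendental (IntermediateField.adjoin ℂ (Set.range x)) (∏ l, y l ^ m l) →
  ∃ G : Gen n E, G.P = P ∧ G.x = x ∧ G.y = y ∧ ∑ l, (m l : ℝ) * G.a l < 0

/-- JOB FIN. There are only finitely many directions of ends.
Proof (uses S_val). For given `i0, ε` and `l`, if there is such a `Gen` then `y_l` is algebraic over the field generated by
`ζ = oe (y_{i0}^ε) x`, so there is a polynomial `A` with `A(x, Y, y_l) = ∑_{(b,j) ∈ F} a_{bj}(x) Y^j y_l^b = 0`, `a_{bj} = cf (A.coeff b) j`,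
`F = {¬ P ∣ a_{bj}}` not empty (not all coefficients vanish at `ζ`). This `A` depends only on `i0, ε, l`.
For every `G : Gen n E` with these `P, x, y, i0, ε`, S_val (coefficients of valuation `1` by `hO`) shows that the slope `a_l` of `G` is one of
the finitely many numbers `-(j - j')/(b - b')`. -/
def S_fin : Prop := ∀ (n : ℕ) (E : Type) [Field E] [Algebra ℂ E] (P : MvPolynomial (Fin n) ℂ)
  (x y : Fin n → E), Set.Finite {a : Fin n → ℝ | ∃ G : Gen n E, G.P = P ∧ G.x = x ∧ G.y = y ∧ G.a = a}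

/-- JOB CONE. Rational vectors which meet every rational open half space meet every open half space.
Proof. Suppose `l ≠ 0` is real and `dot l a ≥ 0` for all `a ∈ A`. Let `A' = {a ∈ A : dot l a = 0}`. The
real solutions of the rational linear system `dot m a = 0 (a ∈ A')` are the real span of the rational solutions,
so there is a rational solution `m` as close to `l` as we want: `m ≠ 0` and `dot m a > 0` for the finitely many
`a ∈ A \ A'`. A positive multiple of `m` is integral and contradicts the hypothesis. -/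
def S_cone : Prop := ∀ (n : ℕ) (A : Set (Fin n → ℝ)), A.Finite →
  (∀ a ∈ A, ∀ l, ∃ q : ℚ, a l = (q : ℝ)) →
  (∀ m : Fin n → ℤ, m ≠ 0 → ∃ a ∈ A, ∑ l, (m l : ℝ) * a l < 0) → PosSpan A

/-- JOB ELL. Elliptic leading forms.
Proof. `F = homogeneousComponent P.totalDegree P` is in LimInf (`S_top`, proved as `W565.EC.t_top`, see
Pool.Agent.W996.EC.Final), `d = deg F ≥ 1`. Take `κ` real not parallel to `a` (`n ≥ 2`). `p(ω) = F(ω a + iκ)` has degree `d`
with leading coefficient `F(a) ≠ 0`. If `ω` is a zero then `Re ω ≠ 0`: for `ω = iσ` we have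
`F(i(σ a + κ)) = i^d F(σ a + κ) ≠ 0` as `σ a + κ ≠ 0` is real. If `Re ω > 0` replace `(κ, ω)` by `(-κ, -ω)`
(`F(-x) = (-1)^d F(x)`). So there is a zero with `Re ω < 0`, and the polynomial is not identically zero: not Star. -/
def S_ell : Prop := ∀ (n : ℕ) (P : MvPolynomial (Fin n) ℂ) (a : Fin n → ℝ), 2 ≤ n →
  1 ≤ P.totalDegree → a ≠ 0 →
  (∀ κ : Fin n → ℝ, κ ≠ 0 → eval (cx κ) (homogeneousComponent P.totalDegree P) ≠ 0) →
  ∃ q, LimInf P q ∧ ¬ Star {a} q

/-- JOB NR. Non-real factors of the leading form.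
Proof. `F` as in S_ell. Let `g(κ, s) = G(i(κ + s a)) = ∑_{j ≤ d} a_j(κ) s^j`, a polynomial in `κ, s`, of degree `d ≥ 1` in `s` (`G` is not
invariant in the direction `a`). Claim: there is a real `κ` such that `F(iκ + ω a)` is not identically zero in `ω` and
`s` with `g(κ, s) = 0`, `Im s ≠ 0`. Otherwise, for all real `κ` outside the zeros of a nonzero polynomial, all roots `s` are
real, so `a_j(κ) / a_d(κ)` is real; hence `a_j a_d^- = a_j^- a_d` as polynomials (`a^-`: complex conjugate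
coefficients), `g a_d^- = g^- a_d`. `g` is irreducible in `ℂ[κ, s]` (it is obtained from `G(iκ)` by the
automorphism `κ ↦ κ + s a`), and does not divide `a_d`, so `g ∣ g^-`, and by degrees `g^- = c g`. Put `s = 0`:
`G(iκ)` is a constant times a real polynomial, and so is `G` if `G` is homogeneous (a factor of the homogeneous `F` is homogeneous; or:
`G(iκ)` real up to a constant and the same for every homogeneous component; to get the constant for `G` use that
`G` is homogeneous). Contradiction. With `ω = i s`: `F(iκ + ω a) = 0`, `Re ω ≠ 0`; if `Re ω > 0` replace `(κ, ω)` by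
`(-κ, -ω)`. -/
def S_nr : Prop := ∀ (n : ℕ) (P G : MvPolynomial (Fin n) ℂ) (a : Fin n → ℝ), P ≠ 0 → Irreducible G →
  G ∣ homogeneousComponent P.totalDegree P →
  (¬ ∃ c : ℂ, c ≠ 0 ∧ ∀ m, (coeff m (C c * G)).im = 0) →
  (∃ (x : Fin n → ℂ) (t : ℂ), eval (fun l => x l + t * (a l : ℂ)) G ≠ eval x G) →
  ∃ q, LimInf P q ∧ ¬ Star {a} q

/-- JOB NRE. An end in whose direction a non-real factor of the leading form is not invariant, if there is at most one
monomial in the `y` algebraic over `ℂ(x)`.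
Proof (uses S_ends). Let `A` be the set of the directions of all ends and suppose `G` is invariant in all directions of `A`, so (being
polynomial) in all directions of the complex span of `A`. If `A` spans `ℂ^n` then `G` is constant, contradiction. The
vectors in `A` are rational, so the orthogonal space is spanned by integral vectors. If `m ≠ 0` is integral and
orthogonal to `A` then `∏ y^m` is algebraic over `ℂ(x)` (S_ends). So by hypothesis the orthogonal space has dimension one, spanned by `m ≠ 0`, and `G` is invariant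
under the orthogonal space of `m`: `G = g(∑ m_l x_l)` with a polynomial `g` in one variable (`S_univ` of W996), irreducible, so of degree
one: `G = α (∑ m_l x_l) + β`. `G` divides the homogeneous polynomial `F ≠ 0`: if `β ≠ 0` then `F` vanishes for
`∑ m_l x_l = -β/α` and by homogeneity for all nonzero values of `∑ m_l x_l`, so `F = 0`. So `β = 0` and `G` is a constant times a real
polynomial, contradiction. -/
def S_nre : Prop := ∀ (n : ℕ) (E : Type) [Field E] [Algebra ℂ E] (P : MvPolynomial (Fin n) ℂ)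
  (x y : Fin n → E) (G : MvPolynomial (Fin n) ℂ), Irreducible P →
  (∀ g : MvPolynomial (Fin n) ℂ, aeval x g = 0 ↔ P ∣ g) → (∀ l, y l ≠ 0) → Tr1 x →
  (∀ m m' : Fin n → ℤ, LinearIndependent ℤ ![m, m'] →
    Transcendental (IntermediateField.adjoin ℂ (Set.range x)) (∏ l, y l ^ m l) ∨
    Transcendental (IntermediateField.adjoin ℂ (Set.range x)) (∏ l, y l ^ m' l)) →
  Irreducible G → G ∣ homogeneousComponent P.totalDegree P →
  (¬ ∃ c : ℂ, c ≠ 0 ∧ ∀ m, (coeff m (C c * G)).im = 0) →
  ∃ Gn : Gen n E, Gn.P = P ∧ Gn.x = x ∧ Gn.y = y ∧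
    ∃ (x' : Fin n → ℂ) (t : ℂ), eval (fun l => x' l + t * (Gn.a l : ℂ)) G ≠ eval x' G

/-- no exponential points outside of `H = 0` -/
def NoExp {n : ℕ} {E : Type} [Field E] [Algebra ℂ E] (x y : Fin n → E)
    (H : MvPolynomial (Fin n ⊕ Fin n) ℂ) : Prop :=
  ∀ z : Fin n → ℂ, Sum.elim z (fun l => Complex.exp (z l)) ∈ Pt (Sum.elim x y) →
    eval (Sum.elim z (fun l => Complex.exp (z l))) H = 0

/-- JOB CORE. Immediate from S_tame, S_region, S_solve. -/
def S_core : Prop := ∀ (n : ℕ) (E : Type) [Field E] [Algebra ℂ E] (G : Gen n E)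
  (H : MvPolynomial (Fin n ⊕ Fin n) ℂ), aeval (Sum.elim G.x G.y) H ≠ 0 → NoExp G.x G.y H →
  ∀ q, LimInf G.P q → Star {G.a} q

/-- JOB DICH. From S_core, S_ends, S_fin, S_cone and the theorem `S_A` of W996 (proved inside
`gen_of_pole` of Pool.Agent.W996.EC.Final: `W565.EC.t_A clos top class' ek`). Hyp: `A` = the set of directions of ends. -/
def S_dich : Prop := ∀ (n : ℕ) (E : Type) [Field E] [Algebra ℂ E] (P : MvPolynomial (Fin n) ℂ)
  (x y : Fin n → E), Irreducible P → (∀ g : MvPolynomial (Fin n) ℂ, aeval x g = 0 ↔ P ∣ g) →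
  (∀ l, y l ≠ 0) → Tr1 x →
  (∀ m : Fin n → ℤ, m ≠ 0 →
    Transcendental (IntermediateField.adjoin ℂ (Set.range x)) (∏ l, y l ^ m l)) →
  ∀ H : MvPolynomial (Fin n ⊕ Fin n) ℂ, aeval (Sum.elim x y) H ≠ 0 → NoExp x y H →
  ∃ (l : Fin n → ℝ) (f : Polynomial ℂ), l ≠ 0 ∧ 1 ≤ f.natDegree ∧
    LimOne P (Polynomial.aeval (lin l) f)

/-- zero sets in `ℂ^n × (ℂ^*)^n` of prime ideals -/
structure IsVar {n : ℕ} (I : Ideal (MvPolynomial (Fin n ⊕ Fin n) ℂ))
    (V : Set (Fin n ⊕ Fin n → ℂ)) : Prop where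
  prime : I.IsPrime
  points : V = {p | (∀ f ∈ I, eval p f = 0) ∧ ∀ j : Fin n, p (Sum.inr j) ≠ 0}
  nonempty : V.Nonempty

/-- the coordinates with index in `J` are algebraically independent on `V` -/
def IndepV {n : ℕ} (V : Set (Fin n ⊕ Fin n → ℂ)) (J : Finset (Fin n ⊕ Fin n)) : Prop :=
  ∀ f : MvPolynomial (Fin n ⊕ Fin n) ℂ, f.vars ⊆ J → (∀ p ∈ V, eval p f = 0) → f = 0

/-- dimension -/
def HasDimV {n : ℕ} (V : Set (Fin n ⊕ Fin n → ℂ)) (d : ℕ) : Prop :=
  (∃ J, J.card = d ∧ IndepV V J) ∧ ∀ J, J.card = d + 1 → ¬ IndepV V J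

/-- `P = 0` is the closure of the projection of `V` to `ℂ^n` -/
def ProjEq {n : ℕ} (V : Set (Fin n ⊕ Fin n → ℂ)) (P : MvPolynomial (Fin n) ℂ) : Prop :=
  Irreducible P ∧ ∀ f : MvPolynomial (Fin n) ℂ,
    (∀ p ∈ V, eval (fun l => p (Sum.inl l)) f = 0) ↔ P ∣ f

/-- the monomial `y^m` is algebraic over `ℂ(x)` on `V` -/
def MonAlg {n : ℕ} (V : Set (Fin n ⊕ Fin n → ℂ)) (P : MvPolynomial (Fin n) ℂ)
    (m : Fin n → ℤ) : Prop :=
  ∃ A : Polynomial (MvPolynomial (Fin n) ℂ), (∃ b, ¬ P ∣ A.coeff b) ∧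
    ∀ p ∈ V, (A.map (eval fun l => p (Sum.inl l))).eval (∏ l, p (Sum.inr l) ^ m l) = 0

/-- exponential points of `V` are dense in `V` -/
def DenseExp {n : ℕ} (V : Set (Fin n ⊕ Fin n → ℂ)) : Prop :=
  ∀ H : MvPolynomial (Fin n ⊕ Fin n) ℂ, (∃ p ∈ V, eval p H ≠ 0) →
    ∃ z : Fin n → ℂ, Sum.elim z (fun l => Complex.exp (z l)) ∈ V ∧
      eval (Sum.elim z (fun l => Complex.exp (z l))) H ≠ 0

/-- JOB FLD. The function field of a variety.
Proof. `E` = field of fractions of the coordinate ring, `x, y` the classes of the coordinates. A polynomial vanishes at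
`(x, y)` iff it is in `I` iff it vanishes on `V` (Nullstellensatz and `y_j ∉ I`: see `nullst`, `exists_field` in
Pool.Agent.W333.ECV and the proof of `Pool.Agent.Q72.MX.t_VM`); `V` is the set of the points of `Pt` with
nonzero `y` coordinates. Tr1: `E` has transcendence degree `n` (by HasDimV, as `E` is generated by the coordinates), and `ℂ(x)`
has transcendence degree at least `n - 1`: some `x_i` occurs in `P`, then the `x_l`, `l ≠ i`, are algebraically independent. So if
`f` is transcendental over `ℂ(x)` then the `x_l`, `l ≠ i`, and `f` are a transcendence basis, and all `g ∈ E` are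
algebraic over the field generated by them. Algebraicity of `∏ y^m` over `ℂ(x)`: clear denominators. -/
def S_fld : Prop := ∀ (n : ℕ) (I : Ideal (MvPolynomial (Fin n ⊕ Fin n) ℂ))
  (V : Set (Fin n ⊕ Fin n → ℂ)) (P : MvPolynomial (Fin n) ℂ), IsVar I V → HasDimV V n →
  ProjEq V P →
  ∃ (E : Type) (_ : Field E) (_ : Algebra ℂ E) (x y : Fin n → E),
    (∀ f, aeval (Sum.elim x y) f = 0 ↔ ∀ p ∈ V, eval p f = 0) ∧
    (∀ p, p ∈ V ↔ p ∈ Pt (Sum.elim x y) ∧ ∀ j, p (Sum.inr j) ≠ 0) ∧
    (∀ g : MvPolynomial (Fin n) ℂ, aeval x g = 0 ↔ P ∣ g) ∧ (∀ l, y l ≠ 0) ∧ Tr1 x ∧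
    (∃ l, Transcendental (IntermediateField.adjoin ℂ (Set.range x)) (y l)) ∧
    ∀ m : Fin n → ℤ, ¬ MonAlg V P m →
      Transcendental (IntermediateField.adjoin ℂ (Set.range x)) (∏ l, y l ^ m l)

/-- the leading form -/
noncomputable def top {n : ℕ} (P : MvPolynomial (Fin n) ℂ) : MvPolynomial (Fin n) ℂ :=
  homogeneousComponent P.totalDegree P

/-- JOB VV. The final form for varieties. From S_fld, S_core, S_ends, S_ell (for the end given by a transcendental `y_l`,
`m = Pi.single l 1`; its direction is not zero because of `∑ m_l a_l < 0`), S_nre + S_nr, and S_dich. -/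
def S_VV : Prop := ∀ (n : ℕ) (I : Ideal (MvPolynomial (Fin n ⊕ Fin n) ℂ))
  (V : Set (Fin n ⊕ Fin n → ℂ)) (P : MvPolynomial (Fin n) ℂ), IsVar I V → HasDimV V n →
  ProjEq V P →
  ((2 ≤ n → (∀ κ : Fin n → ℝ, κ ≠ 0 → eval (cx κ) (top P) ≠ 0) → DenseExp V) ∧
  (∀ G, Irreducible G → G ∣ top P → (¬ ∃ c : ℂ, c ≠ 0 ∧ ∀ m, (coeff m (C c * G)).im = 0) →
    (∀ m m' : Fin n → ℤ, LinearIndependent ℤ ![m, m'] → ¬ MonAlg V P m ∨ ¬ MonAlg V P m') →
    DenseExp V) ∧
  ((∀ m : Fin n → ℤ, m ≠ 0 → ¬ MonAlg V P m) →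
    (¬ ∃ (l : Fin n → ℝ) (f : Polynomial ℂ), l ≠ 0 ∧ 1 ≤ f.natDegree ∧
      LimOne P (Polynomial.aeval (lin l) f)) → DenseExp V))

end Pool.Agent.Q72.EG
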